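import Pool.Agent.Lib.Pe46137i.Defs
import Pool.Agent.Lib.Pe46137h7.OutSemi

/-!
# Replacement of the arc relation, reversal, removal of loops
-/

namespace Pool.Agent.Lib.Pe46137i

open Pool.Agent.Lib.Pe46137h7

/-- Replacement of the arc relation by the relation defined by `ψ`. -/
def subst (ψ : Fml Unit 2) : {n : ℕ} → Fml Unit n → Fml Unit n
  | _, .rel _ i j => ψ.rename ![i, j]
  | _, .eq i j => .eq i j
  | _, .neg φ => .neg (subst ψ φ)
  | _, .and φ χ => .and (subst ψ φ) (subst ψ χ)
  | _, .ex φ => .ex (subst ψ φ)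
  | _, .stc φ i j => .stc (subst ψ φ) i j

theorem sat_subst {V : Type} (E : V → V → Prop) (ψ : Fml Unit 2) {n : ℕ} (φ : Fml Unit n) :
    ∀ (a : Fin n → V), Sat (fun _ => E) (subst ψ φ) a ↔
      Sat (fun _ => fun x y => Sat (fun _ => E) ψ ![x, y]) φ a := by
  induction φ with
  | rel r i j =>
    intro a
    simp only [subst, Sat]
    rw [sat_rename]
    have : a ∘ ![i, j] = ![a i, a j] := by
      funext k
      fin_cases k <;> rfl
    rw [this]
  | eq i j => intro a; rfl
  | neg φ ih => intro a; exact not_congr (ih a)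
  | and φ χ ih1 ih2 => intro a; exact and_congr (ih1 a) (ih2 a)
  | ex φ ih => intro a; exact exists_congr fun v => ih (ext a v)
  | stc φ i j ih =>
    intro a
    have : (fun x y => Sat (fun _ => E) (subst ψ φ) (ext (ext a x) y) ∨
        Sat (fun _ => E) (subst ψ φ) (ext (ext a y) x)) = fun x y =>
        Sat (fun _ => fun x y => Sat (fun _ => E) ψ ![x, y]) φ (ext (ext a x) y) ∨
          Sat (fun _ => fun x y => Sat (fun _ => E) ψ ![x, y]) φ (ext (ext a y) x) := by
      funext x y
      rw [ih, ih]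
    simp only [subst, Sat]
    rw [this]

theorem Def2.subst {P Q : ∀ V : Type, (V → V → Prop) → V → V → Prop} (hP : Def2 P)
    (hQ : Def2 Q) : Def2 fun V E => P V (Q V E) := by
  obtain ⟨φ, hφ⟩ := hP
  obtain ⟨ψ, hψ⟩ := hQ
  refine ⟨Pe46137i.subst ψ φ, fun V E x y => ?_⟩
  rw [sat_subst]
  have : (fun x y => Sat (fun _ => E) ψ ![x, y]) = Q V E := by
    funext x y
    exact propext (hψ V E x y)
  rw [this]
  exact hφ V (Q V E) x y

/-- The digraph without its loops. -/
def Irr {V : Type} (E : V → V → Prop) (a b : V) : Prop := E a b ∧ a ≠ b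

/-- The reversed digraph. -/
def Rev {V : Type} (E : V → V → Prop) (a b : V) : Prop := E b a

theorem reach_irr {V : Type} (E : V → V → Prop) (s t : V) : Reach (Irr E) s t ↔ Reach E s t := by
  constructor
  · intro h
    induction h with
    | refl => exact .refl
    | tail _ h1 ih => exact ih.tail h1.1
  · intro h
    induction h with
    | refl => exact .refl
    | @tail b c _ h1 ih =>
      by_cases hbc : b = c
      · exact hbc ▸ ih
      · exact ih.tail ⟨h1, hbc⟩

theorem reach_rev {V : Type} (E : V → V → Prop) (s t : V) : Reach (Rev E) s t ↔ Reach E t s := by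
  constructor
  · intro h
    induction h with
    | refl => exact .refl
    | tail _ h1 ih => exact .head h1 ih
  · intro h
    induction h with
    | refl => exact .refl
    | tail _ h1 ih => exact .head h1 ih

theorem ReachDef.of {C : ∀ V : Type, (V → V → Prop) → Prop}
    {P : ∀ V : Type, (V → V → Prop) → V → V → Prop} (hP : Def2 P)
    (h : ∀ (V : Type) [Finite V] (E : V → V → Prop), C V E → ∀ s t, P V E s t ↔ Reach E s t) :
    ReachDef C := by
  obtain ⟨φ, hφ⟩ := hP
  exact ⟨φ, fun V _ E hE s t => (hφ V E s t).trans (h V E hE s t)⟩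

theorem ReachDef.mono {C C' : ∀ V : Type, (V → V → Prop) → Prop} (h : ReachDef C')
    (hC : ∀ V E, C V E → C' V E) : ReachDef C := by
  obtain ⟨φ, hφ⟩ := h
  exact ⟨φ, fun V _ E hE => hφ V E (hC V E hE)⟩

theorem ReachDef.irr {C : ∀ V : Type, (V → V → Prop) → Prop} (h : ReachDef C) :
    ReachDef fun V E => C V (Irr E) := by
  obtain ⟨φ, hφ⟩ := h
  have h1 : Def2 fun V E x y => Sat (fun _ => Irr E) φ ![x, y] := by
    have h2 : Def2 fun V E x y => Sat (fun _ => E) φ ![x, y] := ⟨φ, fun V E x y => Iff.rfl⟩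
    exact Def2.subst h2 (Def2.arc.and Def2.eq.not)
  exact ReachDef.of h1 fun V _ E hE s t => (hφ V (Irr E) hE s t).trans (reach_irr E s t)

theorem ReachDef.rev {C : ∀ V : Type, (V → V → Prop) → Prop} (h : ReachDef C) :
    ReachDef fun V E => C V (Rev E) := by
  obtain ⟨φ, hφ⟩ := h
  have h1 : Def2 fun V E x y => Sat (fun _ => Rev E) φ ![y, x] := by
    have h2 : Def2 fun V E x y => Sat (fun _ => E) φ ![y, x] :=
      Def2.inv (P := fun V E x y => Sat (fun _ => E) φ ![x, y]) ⟨φ, fun V E x y => Iff.rfl⟩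
    exact Def2.subst h2 Def2.arc.inv
  exact ReachDef.of h1 fun V _ E hE s t => (hφ V (Rev E) hE t s).trans (reach_rev E t s)

end Pool.Agent.Lib.Pe46137i
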