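import Pool.Agent.Lib.Pe46137i.Semi
import Pool.Agent.Lib.Pe46137i.Sub

/-!
# Forbidden induced digraphs whose underlying graph is a path on three vertices: easy cases
-/

namespace Pool.Agent.Lib.Pe46137i

open Pool.Agent.Lib.Pe46137h7

/-- The digraphs, up to isomorphism, in which two non-adjacent vertices are adjacent to a third
one: `P` is a directed path, `O` and `I` have two single arcs leaving resp. entering the middle
vertex, `A` and `B` have a double arc and a single arc entering resp. leaving the middle vertex,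
`D` has two double arcs. -/
inductive Cherry
  | P | O | I | A | B | D

/-- The arcs; the middle vertex is `1`. -/
def Cherry.graph : Cherry → Fin 3 → Fin 3 → Prop
  | .P, i, j => (i = 0 ∧ j = 1) ∨ (i = 1 ∧ j = 2)
  | .O, i, j => (i = 1 ∧ j = 0) ∨ (i = 1 ∧ j = 2)
  | .I, i, j => (i = 0 ∧ j = 1) ∨ (i = 2 ∧ j = 1)
  | .A, i, j => (i = 0 ∧ j = 1) ∨ (i = 1 ∧ j = 2) ∨ (i = 2 ∧ j = 1)
  | .B, i, j => (i = 1 ∧ j = 0) ∨ (i = 1 ∧ j = 2) ∨ (i = 2 ∧ j = 1)
  | .D, i, j => (i = 0 ∧ j = 1) ∨ (i = 1 ∧ j = 0) ∨ (i = 1 ∧ j = 2) ∨ (i = 2 ∧ j = 1)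

variable {V : Type}

theorem hasInd_three {H : Fin 3 → Fin 3 → Prop} {E : V → V → Prop} {x y z : V}
    (hxy : x ≠ y) (hxz : x ≠ z) (hyz : y ≠ z)
    (h01 : H 0 1 ↔ E x y) (h10 : H 1 0 ↔ E y x) (h12 : H 1 2 ↔ E y z) (h21 : H 2 1 ↔ E z y)
    (h02 : H 0 2 ↔ E x z) (h20 : H 2 0 ↔ E z x) : HasInd H E := by
  refine ⟨![x, y, z], ?_, ?_⟩
  · intro i j hij
    fin_cases i <;> fin_cases j <;> simp_all
  · intro i j hij
    fin_cases i <;> fin_cases j <;> first | exact absurd rfl hij | assumption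

/-- No induced directed path on three vertices and no induced single arc followed by a double
one. -/
theorem adj_of_PA {E : V → V → Prop} (hP : ¬ HasInd Cherry.P.graph E)
    (hA : ¬ HasInd Cherry.A.graph E) {x y z : V} (hxz : x ≠ z) (h1 : E x y) (h2 : ¬ E y x)
    (h3 : E y z) : Adj E x z := by
  by_contra hadj
  have h4 : ¬ E x z := fun h => hadj (Or.inl h)
  have h5 : ¬ E z x := fun h => hadj (Or.inr h)
  have hxy : x ≠ y := fun e => h2 (e ▸ h1)
  have hyz : y ≠ z := fun e => h4 (e ▸ h1)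
  by_cases h6 : E z y
  · exact hA (hasInd_three hxy hxz hyz (by simp [Cherry.graph, h1]) (by simp [Cherry.graph, h2])
      (by simp [Cherry.graph, h3]) (by simp [Cherry.graph, h6]) (by simp [Cherry.graph, h4])
      (by simp [Cherry.graph, h5]))
  · exact hP (hasInd_three hxy hxz hyz (by simp [Cherry.graph, h1]) (by simp [Cherry.graph, h2])
      (by simp [Cherry.graph, h3]) (by simp [Cherry.graph, h6]) (by simp [Cherry.graph, h4])
      (by simp [Cherry.graph, h5]))

/-- No induced `O` and no induced `B`. -/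
theorem adj_of_OB {E : V → V → Prop} (hO : ¬ HasInd Cherry.O.graph E)
    (hB : ¬ HasInd Cherry.B.graph E) {x y z : V} (hxz : x ≠ z) (h1 : E y x) (h2 : ¬ E x y)
    (h3 : E y z) : Adj E x z := by
  by_contra hadj
  have h4 : ¬ E x z := fun h => hadj (Or.inl h)
  have h5 : ¬ E z x := fun h => hadj (Or.inr h)
  have hxy : x ≠ y := fun e => h2 (e ▸ h1)
  have hyz : y ≠ z := fun e => h5 (e ▸ h1)
  by_cases h6 : E z y
  · exact hB (hasInd_three hxy hxz hyz (by simp [Cherry.graph, h2]) (by simp [Cherry.graph, h1])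
      (by simp [Cherry.graph, h3]) (by simp [Cherry.graph, h6]) (by simp [Cherry.graph, h4])
      (by simp [Cherry.graph, h5]))
  · exact hO (hasInd_three hxy hxz hyz (by simp [Cherry.graph, h2]) (by simp [Cherry.graph, h1])
      (by simp [Cherry.graph, h3]) (by simp [Cherry.graph, h6]) (by simp [Cherry.graph, h4])
      (by simp [Cherry.graph, h5]))

theorem hasInd_rev {H H' : Fin 3 → Fin 3 → Prop} {E : V → V → Prop} (σ : Fin 3 ≃ Fin 3)
    (hσ : ∀ i j, i ≠ j → (H' i j ↔ H (σ j) (σ i))) (h : HasInd H' (Rev E)) : HasInd H E := by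
  obtain ⟨f, hf, hf2⟩ := h
  refine ⟨f ∘ σ.symm, hf.comp σ.symm.injective, fun i j hij => ?_⟩
  have h1 : σ.symm j ≠ σ.symm i := fun e => hij (σ.symm.injective e).symm
  have h2 := hσ (σ.symm j) (σ.symm i) h1
  rw [Equiv.apply_symm_apply, Equiv.apply_symm_apply] at h2
  rw [← h2, hf2 _ _ h1]
  rfl

theorem rev_P {E : V → V → Prop} (h : ¬ HasInd Cherry.P.graph E) :
    ¬ HasInd Cherry.P.graph (Rev E) := by
  refine fun h' => h (hasInd_rev (Equiv.swap 0 2) ?_ h')
  intro i j hij
  fin_cases i <;> fin_cases j <;> simp [Cherry.graph, Equiv.swap_apply_def]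

theorem rev_B {E : V → V → Prop} (h : ¬ HasInd Cherry.B.graph E) :
    ¬ HasInd Cherry.A.graph (Rev E) := by
  refine fun h' => h (hasInd_rev (Equiv.refl _) ?_ h')
  intro i j hij
  fin_cases i <;> fin_cases j <;> simp [Cherry.graph]

theorem rev_A {E : V → V → Prop} (h : ¬ HasInd Cherry.A.graph E) :
    ¬ HasInd Cherry.B.graph (Rev E) := by
  refine fun h' => h (hasInd_rev (Equiv.refl _) ?_ h')
  intro i j hij
  fin_cases i <;> fin_cases j <;> simp [Cherry.graph]

theorem rev_I {E : V → V → Prop} (h : ¬ HasInd Cherry.I.graph E) :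
    ¬ HasInd Cherry.O.graph (Rev E) := by
  refine fun h' => h (hasInd_rev (Equiv.refl _) ?_ h')
  intro i j hij
  fin_cases i <;> fin_cases j <;> simp [Cherry.graph]

/-- An arc on a closed walk of length two or three. -/
def Short3 (E : V → V → Prop) (x y : V) : Prop := E x y ∧ (E y x ∨ ∃ z, E y z ∧ E z x)

theorem def_short3 : Def2 fun _ E => Short3 E :=
  (Def2.arc.and (Def2.arc.inv.or (Def2.arc.comp Def2.arc).inv)).congr fun V E x y => Iff.rfl

theorem Short3.reach {E : V → V → Prop} {x y : V} (h : Short3 E x y) : Reach E y x := by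
  rcases h.2 with h1 | ⟨z, h1, h2⟩
  · exact .single h1
  · exact .head h1 (.single h2)

theorem reach_of_sym {E : V → V → Prop} {x y : V}
    (h : Relation.ReflTransGen (Sym (Short3 E)) x y) : Reach E x y := by
  induction h with
  | refl => exact .refl
  | tail _ h1 ih =>
    rcases h1 with h1 | h1
    · exact ih.tail h1.1
    · exact ih.trans h1.reach

/-- Forbidding `P` and `A`. -/
theorem def_PA : ReachDef fun _ E => ¬ HasInd Cherry.P.graph E ∧ ¬ HasInd Cherry.A.graph E := by
  refine ReachDef.of (P := fun V E s t => s = t ∨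
    ∃ v, Relation.ReflTransGen (Sym (Short3 E)) s v ∧ E v t)
    (Def2.eq.or (def_short3.stc.comp Def2.arc)) ?_
  rintro V _ E ⟨hP, hA⟩ s t
  constructor
  · rintro (rfl | ⟨v, h1, h2⟩)
    · exact .refl
    · exact (reach_of_sym h1).tail h2
  · intro h
    obtain ⟨n, p, h0, h1, h2, hmin⟩ := exists_shortest h
    rcases Nat.eq_zero_or_pos n with rfl | hn
    · exact Or.inl (h0.symm.trans h1)
    right
    obtain ⟨m, rfl⟩ := Nat.exists_eq_add_of_le' hn
    refine ⟨p m, ?_, h1 ▸ h2 m (by omega)⟩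
    have key : ∀ i, i ≤ m → Relation.ReflTransGen (Sym (Short3 E)) s (p i) := by
      intro i
      induction i with
      | zero => intro _; rw [h0]
      | succ i ih =>
        intro hi
        refine (ih (by omega)).tail (Or.inl ⟨h2 i (by omega), ?_⟩)
        by_cases h3 : E (p (i + 1)) (p i)
        · exact Or.inl h3
        · right
          have hne : p i ≠ p (i + 1 + 1) := path_ne h0 h1 h2 hmin (by omega) (by omega)
          rcases adj_of_PA hP hA hne (h2 i (by omega)) h3 (h2 (i + 1) (by omega)) with h4 | h4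
          · exact absurd h4 (no_chord h0 h1 h2 hmin (by omega) (by omega))
          · exact ⟨_, h2 (i + 1) (by omega), h4⟩
    exact key m le_rfl

/-- Forbidding `P` and `B`. -/
theorem def_PB : ReachDef fun _ E => ¬ HasInd Cherry.P.graph E ∧ ¬ HasInd Cherry.B.graph E :=
  def_PA.rev.mono fun _ _ h => ⟨rev_P h.1, rev_B h.2⟩

theorem hasInd_irr {h : ℕ} {H : Fin h → Fin h → Prop} {E : V → V → Prop} :
    HasInd H (Irr E) ↔ HasInd H E := by
  constructor
  · rintro ⟨f, hf, hf2⟩
    refine ⟨f, hf, fun i j hij => (hf2 i j hij).trans ?_⟩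
    exact ⟨fun h => h.1, fun h => ⟨h, fun e => hij (hf e)⟩⟩
  · rintro ⟨f, hf, hf2⟩
    refine ⟨f, hf, fun i j hij => (hf2 i j hij).trans ?_⟩
    exact ⟨fun h => ⟨h, fun e => hij (hf e)⟩, fun h => h.1⟩

/-- Forbidding `O` and `B`. -/
theorem def_OB : ReachDef fun _ E => ¬ HasInd Cherry.O.graph E ∧ ¬ HasInd Cherry.B.graph E := by
  have h1 : ReachDef fun _ E => (¬ HasInd Cherry.O.graph E ∧ ¬ HasInd Cherry.B.graph E) ∧
      ∀ v, ¬ E v v := by
    refine ReachDef.of def_semiReach ?_
    rintro V _ E ⟨⟨hO, hB⟩, hirr⟩ s t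
    have hsemi : Semi E := fun v a b ha ha' hb hab => adj_of_OB hO hB hab ha ha' hb
    exact (hsemi.reach_iff hirr).symm
  refine h1.irr.mono fun V E h => ⟨⟨fun h' => h.1 (hasInd_irr.1 h'),
    fun h' => h.2 (hasInd_irr.1 h')⟩, fun v hv => hv.2 rfl⟩

/-- Forbidding `I` and `A`. -/
theorem def_IA : ReachDef fun _ E => ¬ HasInd Cherry.I.graph E ∧ ¬ HasInd Cherry.A.graph E :=
  def_OB.rev.mono fun _ _ h => ⟨rev_I h.1, rev_A h.2⟩

end Pool.Agent.Lib.Pe46137i
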