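import Pool.Agent.Lib.Pe46137h7.Hardness
import Pool.Agent.Lib.Pe46137i.Cherry

/-!
# Quantifier-free reductions: cliques of ports
-/

namespace Pool.Agent.Lib.Pe46137i

open Pool.Agent.Lib.Pe46137h7

/-- The formula saying that the old vertex `0` is `(1, 2)`. -/
abbrev diag : Fml OrdVoc 3 := .and (.eq 0 1) (.eq 1 2)

theorem into_of {r : Reduction} {C : ∀ W : Type, (W → W → Prop) → Prop} (hsrc : r.src = diag)
    (htgt : r.tgt = diag)
    (hC : ∀ (V : Type) [Finite V] [LinearOrder V] (E : V → V → Prop), C _ (r.out E))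
    (hreach : ∀ (V : Type) [Finite V] [LinearOrder V] (E : V → V → Prop) (s t : V),
      Relation.ReflTransGen (r.out E) (r.srcCopy, s, s) (r.tgtCopy, t, t) ↔
        Relation.ReflTransGen E s t) : Into r C := by
  intro V _ _ E
  have h1 : ∀ (s : V) (x : V × V), r.IsSrc E s x ↔ (s = x.1 ∧ x.1 = x.2) := by
    intro s x
    unfold Reduction.IsSrc
    rw [hsrc]
    exact Iff.rfl
  have h2 : ∀ (s : V) (x : V × V), r.IsTgt E s x ↔ (s = x.1 ∧ x.1 = x.2) := by
    intro s x
    unfold Reduction.IsTgt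
    rw [htgt]
    exact Iff.rfl
  refine ⟨hC V E, fun s => ⟨(s, s), (h1 _ _).2 ⟨rfl, rfl⟩, ?_⟩,
    fun s => ⟨(s, s), (h2 _ _).2 ⟨rfl, rfl⟩, ?_⟩, ?_⟩
  · rintro ⟨a, b⟩ hab
    obtain ⟨h3, h4⟩ := (h1 _ _).1 hab
    simp only at h3 h4
    rw [← h4, ← h3]
  · rintro ⟨a, b⟩ hab
    obtain ⟨h3, h4⟩ := (h2 _ _).1 hab
    simp only at h3 h4
    rw [← h4, ← h3]
  · rintro s t ⟨a, b⟩ ⟨c, d⟩ h3 h4
    obtain ⟨h5, h6⟩ := (h1 _ _).1 h3
    obtain ⟨h7, h8⟩ := (h2 _ _).1 h4
    simp only at h5 h6 h7 h8
    subst h5 h6 h7 h8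
    exact hreach V E s t

/-- No arc is the reversal of an arc. -/
def Oriented {W : Type} (F : W → W → Prop) : Prop := ∀ p q, F p q → ¬ F q p

theorem into_blob : Into blob fun _ F => Oriented F :=
  into_of rfl rfl (fun _ _ _ _ => blob_oriented) fun _ _ _ _ s t => blob_reach s t

/-! ### Ports in double cliques -/

/-- The arc formulas: every vertex becomes a clique of double arcs consisting of its outgoing
ports, in the copy `0`, and of its incoming ports, in the copy `1`. -/
def portArc : Fin 2 → Fin 2 → Fml OrdVoc 4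
  | 0, 0 => .and (.eq 0 2) (.neg (.eq 1 3))
  | 0, 1 => .or (.eq 0 3) (.and (.and (.eq 0 2) (.eq 1 3)) (.rel .arc 0 1))
  | 1, 0 => .eq 1 2
  | 1, 1 => .and (.eq 1 3) (.neg (.eq 0 2))

/-- The reduction with port cliques. -/
abbrev port : Reduction where
  copies := 2
  arc := portArc
  src := diag
  tgt := diag
  srcCopy := 0
  tgtCopy := 0
  arc_fo := by
    intro i j
    fin_cases i <;> fin_cases j <;> simp [portArc, Fml.FirstOrder, Fml.or]
  src_fo := by simp [Fml.FirstOrder]
  tgt_fo := by simp [Fml.FirstOrder]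

section Port

variable {V : Type} [LinearOrder V] {E : V → V → Prop}

/-- The old vertex to which a port belongs. -/
def own (p : Fin 2 × V × V) : V := if p.1 = 0 then p.2.1 else p.2.2

theorem port_out_iff (p q : Fin 2 × V × V) : port.out E p q ↔
    (p ≠ q ∧ own p = own q) ∨ (p.1 = 0 ∧ q.1 = 1 ∧ p.2 = q.2 ∧ E p.2.1 p.2.2) := by
  obtain ⟨i, a, b⟩ := p
  obtain ⟨j, c, d⟩ := q
  unfold Reduction.out
  fin_cases i <;> fin_cases j <;>
    simp [portArc, Sat, sat_or, ordStr, own] <;> tauto

/-- Single arcs join an outgoing port to the incoming port with the same name. -/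
theorem port_single {p q : Fin 2 × V × V} (h : port.out E p q) (h' : ¬ port.out E q p) :
    p.1 = 0 ∧ q.1 = 1 ∧ p.2 = q.2 := by
  rw [port_out_iff] at h h'
  rcases h with ⟨h1, h2⟩ | ⟨h1, h2, h3, _⟩
  · exact absurd (Or.inl ⟨h1.symm, h2.symm⟩) h'
  · exact ⟨h1, h2, h3⟩

theorem port_unique {p q r : Fin 2 × V × V}
    (h1 : (port.out E p q ∧ ¬ port.out E q p) ∨ (port.out E q p ∧ ¬ port.out E p q))
    (h2 : (port.out E p r ∧ ¬ port.out E r p) ∨ (port.out E r p ∧ ¬ port.out E p r)) :
    q = r := by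
  have key : ∀ x : Fin 2 × V × V,
      (port.out E p x ∧ ¬ port.out E x p) ∨ (port.out E x p ∧ ¬ port.out E p x) →
      x.1 ≠ p.1 ∧ x.2 = p.2 := by
    rintro x (⟨h3, h4⟩ | ⟨h3, h4⟩)
    · obtain ⟨h5, h6, h7⟩ := port_single h3 h4
      exact ⟨by rw [h5, h6]; decide, h7.symm⟩
    · obtain ⟨h5, h6, h7⟩ := port_single h3 h4
      exact ⟨by rw [h5, h6]; decide, h7⟩
  obtain ⟨h3, h4⟩ := key q h1
  obtain ⟨h5, h6⟩ := key r h2
  refine Prod.ext ?_ (h4.trans h6.symm)
  have : ∀ a b c : Fin 2, a ≠ c → b ≠ c → a = b := by decide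
  exact this _ _ _ h3 h5

theorem port_double {p q : Fin 2 × V × V} (h : port.out E p q) (h' : port.out E q p) :
    own p = own q := by
  rw [port_out_iff] at h h'
  rcases h with ⟨_, h2⟩ | ⟨h1, h2, _⟩
  · exact h2
  · rcases h' with ⟨_, h4⟩ | ⟨h3, _⟩
    · exact h4.symm
    · rw [h2] at h3; exact absurd h3 (by decide)

theorem port_reach (s t : V) :
    Relation.ReflTransGen (port.out E) (0, s, s) (0, t, t) ↔ Relation.ReflTransGen E s t := by
  constructor
  · intro h
    have key : ∀ p q : Fin 2 × V × V, Relation.ReflTransGen (port.out E) p q →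
        Relation.ReflTransGen E (own p) (own q) := by
      intro p q h
      induction h with
      | refl => exact .refl
      | @tail b c _ h1 ih =>
        rw [port_out_iff] at h1
        rcases h1 with ⟨_, h2⟩ | ⟨h2, h3, h4, h5⟩
        · rwa [← h2]
        · refine ih.tail ?_
          simp only [own, h2, h3, if_true]
          rw [if_neg (by decide), ← h4]
          exact h5
    have := key _ _ h
    simpa [own] using this
  · intro h
    have step : ∀ p q : Fin 2 × V × V, own p = own q →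
        Relation.ReflTransGen (port.out E) p q := by
      intro p q hpq
      by_cases h1 : p = q
      · rw [h1]
      · exact .single ((port_out_iff _ _).2 (Or.inl ⟨h1, hpq⟩))
    induction h with
    | refl => exact .refl
    | @tail b c _ h1 ih =>
      have h2 : port.out E (0, b, c) (1, b, c) :=
        (port_out_iff _ _).2 (Or.inr ⟨rfl, rfl, rfl, h1⟩)
      exact ((ih.trans (step (0, b, b) (0, b, c) rfl)).tail h2).trans
        (step (1, b, c) (0, c, c) (by simp [own]))

end Port

/-- The digraphs in which every vertex lies on at most one single arc and any two distinct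
vertices joined to a third one by double arcs are adjacent. -/
def PortLike {W : Type} (F : W → W → Prop) : Prop :=
  (∀ p q r, ((F p q ∧ ¬ F q p) ∨ (F q p ∧ ¬ F p q)) → ((F p r ∧ ¬ F r p) ∨ (F r p ∧ ¬ F p r)) →
    q = r) ∧
  ∀ p q r, F p q → F q p → F q r → F r q → p ≠ r → F p r

theorem into_port : Into port fun _ F => PortLike F := by
  refine into_of rfl rfl (fun V _ _ E => ⟨fun p q r => port_unique, ?_⟩)
    fun V _ _ E s t => port_reach s t
  intro p q r h1 h2 h3 h4 h5
  exact (port_out_iff _ _).2 (Or.inl ⟨h5, (port_double h1 h2).trans (port_double h3 h4)⟩)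

/-! ### Merging by double cliques -/

/-- The arc formulas: the outgoing ports of a vertex are independent, the incoming ports form a
double clique; a centre, in the copy `2`, receives arcs from the incoming ports and sends arcs to
the outgoing ones. -/
def mergeArc : Fin 3 → Fin 3 → Fml OrdVoc 4
  | 0, 1 => .and (.and (.eq 0 2) (.eq 1 3)) (.rel .arc 0 1)
  | 1, 1 => .and (.eq 1 3) (.neg (.eq 0 2))
  | 1, 2 => .and (.eq 1 2) (.eq 2 3)
  | 2, 0 => .and (.eq 0 1) (.eq 0 2)
  | _, _ => .bot

/-- The reduction with double cliques of incoming ports. -/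
abbrev merge : Reduction where
  copies := 3
  arc := mergeArc
  src := diag
  tgt := diag
  srcCopy := 2
  tgtCopy := 2
  arc_fo := by
    intro i j
    fin_cases i <;> fin_cases j <;> simp [mergeArc, Fml.FirstOrder, Fml.bot]
  src_fo := by simp [Fml.FirstOrder]
  tgt_fo := by simp [Fml.FirstOrder]

/-- The arc formulas: the same with double cliques of outgoing ports. -/
def splitArc : Fin 3 → Fin 3 → Fml OrdVoc 4
  | 0, 1 => .and (.and (.eq 0 2) (.eq 1 3)) (.rel .arc 0 1)
  | 0, 0 => .and (.eq 0 2) (.neg (.eq 1 3))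
  | 1, 2 => .and (.eq 1 2) (.eq 2 3)
  | 2, 0 => .and (.eq 0 1) (.eq 0 2)
  | _, _ => .bot

/-- The reduction with double cliques of outgoing ports. -/
abbrev split : Reduction where
  copies := 3
  arc := splitArc
  src := diag
  tgt := diag
  srcCopy := 2
  tgtCopy := 2
  arc_fo := by
    intro i j
    fin_cases i <;> fin_cases j <;> simp [splitArc, Fml.FirstOrder, Fml.bot]
  src_fo := by simp [Fml.FirstOrder]
  tgt_fo := by simp [Fml.FirstOrder]

section Merge

variable {V : Type} [LinearOrder V] {E : V → V → Prop}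

theorem merge_out_iff (p q : Fin 3 × V × V) : merge.out E p q ↔
    (p.1 = 0 ∧ q.1 = 1 ∧ p.2 = q.2 ∧ E p.2.1 p.2.2) ∨
    (p.1 = 1 ∧ q.1 = 1 ∧ p ≠ q ∧ p.2.2 = q.2.2) ∨
    (p.1 = 1 ∧ q.1 = 2 ∧ q.2 = (p.2.2, p.2.2)) ∨
    (p.1 = 2 ∧ q.1 = 0 ∧ p.2 = (q.2.1, q.2.1)) := by
  obtain ⟨i, a, b⟩ := p
  obtain ⟨j, c, d⟩ := q
  unfold Reduction.out
  fin_cases i <;> fin_cases j <;>
    simp [mergeArc, Sat, Fml.bot, ordStr] <;> grind

theorem split_out_iff (p q : Fin 3 × V × V) : split.out E p q ↔
    (p.1 = 0 ∧ q.1 = 1 ∧ p.2 = q.2 ∧ E p.2.1 p.2.2) ∨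
    (p.1 = 0 ∧ q.1 = 0 ∧ p ≠ q ∧ p.2.1 = q.2.1) ∨
    (p.1 = 1 ∧ q.1 = 2 ∧ q.2 = (p.2.2, p.2.2)) ∨
    (p.1 = 2 ∧ q.1 = 0 ∧ p.2 = (q.2.1, q.2.1)) := by
  obtain ⟨i, a, b⟩ := p
  obtain ⟨j, c, d⟩ := q
  unfold Reduction.out
  fin_cases i <;> fin_cases j <;>
    simp [splitArc, Sat, Fml.bot, ordStr] <;> grind

/-- The old vertex at which a new vertex sits. -/
def own3 (p : Fin 3 × V × V) : V := if p.1 = 0 then p.2.1 else p.2.2

theorem merge_reach (s t : V) :
    Relation.ReflTransGen (merge.out E) (2, s, s) (2, t, t) ↔ Relation.ReflTransGen E s t := by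
  constructor
  · intro h
    have key : ∀ p q : Fin 3 × V × V, Relation.ReflTransGen (merge.out E) p q →
        Relation.ReflTransGen E (own3 p) (own3 q) := by
      intro p q h
      induction h with
      | refl => exact .refl
      | @tail b c _ h1 ih =>
        obtain ⟨i, u, v⟩ := b
        obtain ⟨j, x, y⟩ := c
        rw [merge_out_iff] at h1
        simp only [own3] at ih ⊢
        rcases h1 with ⟨h2, h3, h4, h5⟩ | ⟨h2, h3, _, h4⟩ | ⟨h2, h3, h4⟩ | ⟨h2, h3, h4⟩
        · simp only at h2 h3 h4 h5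
          subst h2 h3
          obtain ⟨rfl, rfl⟩ := Prod.mk.inj h4
          exact ih.tail (by simpa using h5)
        · simp only at h2 h3 h4
          subst h2 h3 h4
          simpa using ih
        · simp only at h2 h3 h4
          subst h2 h3
          obtain ⟨rfl, rfl⟩ := Prod.mk.inj h4
          simpa using ih
        · simp only at h2 h3 h4
          subst h2 h3
          obtain ⟨rfl, rfl⟩ := Prod.mk.inj h4
          simpa using ih
    have := key _ _ h
    simpa [own3] using this
  · intro h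
    induction h with
    | refl => exact .refl
    | @tail b c _ h1 ih =>
      refine ((ih.tail (c := (0, b, c)) ?_).tail (c := (1, b, c)) ?_).tail ?_
      · exact (merge_out_iff _ _).2 (Or.inr (Or.inr (Or.inr ⟨rfl, rfl, rfl⟩)))
      · exact (merge_out_iff _ _).2 (Or.inl ⟨rfl, rfl, rfl, h1⟩)
      · exact (merge_out_iff _ _).2 (Or.inr (Or.inr (Or.inl ⟨rfl, rfl, rfl⟩)))

theorem split_reach (s t : V) :
    Relation.ReflTransGen (split.out E) (2, s, s) (2, t, t) ↔ Relation.ReflTransGen E s t := by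
  constructor
  · intro h
    have key : ∀ p q : Fin 3 × V × V, Relation.ReflTransGen (split.out E) p q →
        Relation.ReflTransGen E (own3 p) (own3 q) := by
      intro p q h
      induction h with
      | refl => exact .refl
      | @tail b c _ h1 ih =>
        obtain ⟨i, u, v⟩ := b
        obtain ⟨j, x, y⟩ := c
        rw [split_out_iff] at h1
        simp only [own3] at ih ⊢
        rcases h1 with ⟨h2, h3, h4, h5⟩ | ⟨h2, h3, _, h4⟩ | ⟨h2, h3, h4⟩ | ⟨h2, h3, h4⟩
        · simp only at h2 h3 h4 h5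
          subst h2 h3
          obtain ⟨rfl, rfl⟩ := Prod.mk.inj h4
          exact ih.tail (by simpa using h5)
        · simp only at h2 h3 h4
          subst h2 h3 h4
          simpa using ih
        · simp only at h2 h3 h4
          subst h2 h3
          obtain ⟨rfl, rfl⟩ := Prod.mk.inj h4
          simpa using ih
        · simp only at h2 h3 h4
          subst h2 h3
          obtain ⟨rfl, rfl⟩ := Prod.mk.inj h4
          simpa using ih
    have := key _ _ h
    simpa [own3] using this
  · intro h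
    induction h with
    | refl => exact .refl
    | @tail b c _ h1 ih =>
      refine ((ih.tail (c := (0, b, c)) ?_).tail (c := (1, b, c)) ?_).tail ?_
      · exact (split_out_iff _ _).2 (Or.inr (Or.inr (Or.inr ⟨rfl, rfl, rfl⟩)))
      · exact (split_out_iff _ _).2 (Or.inl ⟨rfl, rfl, rfl, h1⟩)
      · exact (split_out_iff _ _).2 (Or.inr (Or.inr (Or.inl ⟨rfl, rfl, rfl⟩)))

end Merge

end Pool.Agent.Lib.Pe46137i
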