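import Pool.Agent.Lib.Pe46137i.Red

/-!
# Forbidden induced digraphs whose underlying graph is a path on three vertices: the dichotomy
-/

namespace Pool.Agent.Lib.Pe46137i

open Pool.Agent.Lib.Pe46137h7

theorem of_hasInd {W : Type} {H : Fin 3 → Fin 3 → Prop} {E : W → W → Prop} (h : HasInd H E) :
    ∃ x y z : W, (x ≠ y ∧ x ≠ z ∧ y ≠ z) ∧ (H 0 1 ↔ E x y) ∧ (H 1 0 ↔ E y x) ∧
      (H 1 2 ↔ E y z) ∧ (H 2 1 ↔ E z y) ∧ (H 0 2 ↔ E x z) ∧ (H 2 0 ↔ E z x) := by
  obtain ⟨f, hf, h2⟩ := h
  refine ⟨f 0, f 1, f 2, ⟨fun e => ?_, fun e => ?_, fun e => ?_⟩, h2 _ _ (by decide),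
    h2 _ _ (by decide), h2 _ _ (by decide), h2 _ _ (by decide), h2 _ _ (by decide),
    h2 _ _ (by decide)⟩
  · exact absurd (hf e) (by decide)
  · exact absurd (hf e) (by decide)
  · exact absurd (hf e) (by decide)

section

variable {W : Type} {F : W → W → Prop}

theorem portLike_avoids (h : PortLike F) : ¬ HasInd Cherry.P.graph F ∧
    ¬ HasInd Cherry.O.graph F ∧ ¬ HasInd Cherry.I.graph F ∧ ¬ HasInd Cherry.D.graph F := by
  obtain ⟨h1, h2⟩ := h
  refine ⟨fun hi => ?_, fun hi => ?_, fun hi => ?_, fun hi => ?_⟩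
  all_goals
    obtain ⟨x, y, z, ⟨hxy, hxz, hyz⟩, h01, h10, h12, h21, h02, h20⟩ := of_hasInd hi
    simp only [Cherry.graph, Fin.reduceEq, and_self, and_true, and_false, true_and, false_and,
      or_true, or_false, true_or, false_or, true_iff, false_iff, iff_true, iff_false]
      at h01 h10 h12 h21 h02 h20
  · exact hxz (h1 y x z (Or.inr ⟨h01, h10⟩) (Or.inl ⟨h12, h21⟩))
  · exact hxz (h1 y x z (Or.inl ⟨h10, h01⟩) (Or.inl ⟨h12, h21⟩))
  · exact hxz (h1 y x z (Or.inr ⟨h01, h10⟩) (Or.inr ⟨h21, h12⟩))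
  · exact h02 (h2 x y z h01 h10 h12 h21 hxz)

theorem oriented_avoids (h : Oriented F) : ¬ HasInd Cherry.A.graph F ∧
    ¬ HasInd Cherry.B.graph F ∧ ¬ HasInd Cherry.D.graph F := by
  refine ⟨fun hi => ?_, fun hi => ?_, fun hi => ?_⟩
  all_goals
    obtain ⟨x, y, z, -, h01, h10, h12, h21, h02, h20⟩ := of_hasInd hi
    simp only [Cherry.graph, Fin.reduceEq, and_self, and_true, and_false, true_and, false_and,
      or_true, or_false, true_or, false_or, true_iff, false_iff, iff_true, iff_false]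
      at h01 h10 h12 h21 h02 h20
    exact h _ _ h12 h21

end

section

variable {V : Type} [LinearOrder V] {E : V → V → Prop}

theorem merge_avoids : ¬ HasInd Cherry.I.graph (merge.out E) ∧
    ¬ HasInd Cherry.B.graph (merge.out E) ∧ ¬ HasInd Cherry.D.graph (merge.out E) := by
  refine ⟨fun hi => ?_, fun hi => ?_, fun hi => ?_⟩
  all_goals
    obtain ⟨⟨i, a, b⟩, ⟨j, c, d⟩, ⟨k, e, f⟩, ⟨hxy, hxz, hyz⟩, h01, h10, h12, h21, h02, h20⟩ :=
      of_hasInd hi
    simp only [Cherry.graph, Fin.reduceEq, and_self, and_true, and_false, true_and, false_and,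
      or_true, or_false, true_or, false_or, true_iff, false_iff, iff_true, iff_false]
      at h01 h10 h12 h21 h02 h20
    rw [merge_out_iff] at h01 h10 h12 h21 h02 h20
    clear hi
    fin_cases i <;> fin_cases j <;> simp at h01 h10 <;> fin_cases k <;>
      simp at hxy hxz hyz h12 h21 h02 h20 <;> grind

theorem split_avoids : ¬ HasInd Cherry.O.graph (split.out E) ∧
    ¬ HasInd Cherry.A.graph (split.out E) ∧ ¬ HasInd Cherry.D.graph (split.out E) := by
  refine ⟨fun hi => ?_, fun hi => ?_, fun hi => ?_⟩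
  all_goals
    obtain ⟨⟨i, a, b⟩, ⟨j, c, d⟩, ⟨k, e, f⟩, ⟨hxy, hxz, hyz⟩, h01, h10, h12, h21, h02, h20⟩ :=
      of_hasInd hi
    simp only [Cherry.graph, Fin.reduceEq, and_self, and_true, and_false, true_and, false_and,
      or_true, or_false, true_or, false_or, true_iff, false_iff, iff_true, iff_false]
      at h01 h10 h12 h21 h02 h20
    rw [split_out_iff] at h01 h10 h12 h21 h02 h20
    clear hi
    fin_cases i <;> fin_cases j <;> simp at h01 h10 <;> fin_cases k <;>
      simp at hxy hxz hyz h12 h21 h02 h20 <;> grind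

end

/-- **Dichotomy for forbidden cherries.**  For every set `T` of digraphs whose underlying graph is
a path on three vertices, reachability on the digraphs having no induced member of `T` is
definable in first-order logic with symmetric transitive closure if `T` contains both members of
one of the pairs `{P, A}`, `{P, B}`, `{O, B}`, `{I, A}`; otherwise reachability on all digraphs
reduces to it by a first-order reduction. -/
theorem cherry_dichotomy (T : Set Cherry) :
    (((.P ∈ T ∧ .A ∈ T) ∨ (.P ∈ T ∧ .B ∈ T) ∨ (.O ∈ T ∧ .B ∈ T) ∨ (.I ∈ T ∧ .A ∈ T)) →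
      ReachDef fun _ E => ∀ c ∈ T, ¬ HasInd c.graph E) ∧
    (¬ ((.P ∈ T ∧ .A ∈ T) ∨ (.P ∈ T ∧ .B ∈ T) ∨ (.O ∈ T ∧ .B ∈ T) ∨ (.I ∈ T ∧ .A ∈ T)) →
      ∃ r : Reduction, Into r fun _ F => ∀ c ∈ T, ¬ HasInd c.graph F) := by
  constructor
  · rintro (⟨h1, h2⟩ | ⟨h1, h2⟩ | ⟨h1, h2⟩ | ⟨h1, h2⟩)
    · exact def_PA.mono fun _ _ h => ⟨h _ h1, h _ h2⟩
    · exact def_PB.mono fun _ _ h => ⟨h _ h1, h _ h2⟩
    · exact def_OB.mono fun _ _ h => ⟨h _ h1, h _ h2⟩
    · exact def_IA.mono fun _ _ h => ⟨h _ h1, h _ h2⟩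
  · intro hT
    have into_mono : ∀ {r : Reduction} {C C' : ∀ W : Type, (W → W → Prop) → Prop},
        Into r C' → (∀ W F, C' W F → C W F) → Into r C := by
      intro r C C' h hC V _ _ E
      exact ⟨hC _ _ (h V E).1, (h V E).2⟩
    by_cases hA : Cherry.A ∈ T
    · by_cases hB : Cherry.B ∈ T
      · refine ⟨blob, into_mono into_blob fun W F hF c hc => ?_⟩
        obtain ⟨h1, h2, h3⟩ := oriented_avoids hF
        cases c <;> first | assumption | tauto
      · refine ⟨split, ?_⟩
        refine into_of rfl rfl (fun V _ _ E c hc => ?_) fun V _ _ E s t => split_reach s t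
        obtain ⟨h1, h2, h3⟩ := split_avoids (E := E)
        cases c <;> first | assumption | tauto
    · by_cases hB : Cherry.B ∈ T
      · refine ⟨merge, ?_⟩
        refine into_of rfl rfl (fun V _ _ E c hc => ?_) fun V _ _ E s t => merge_reach s t
        obtain ⟨h1, h2, h3⟩ := merge_avoids (E := E)
        cases c <;> first | assumption | tauto
      · refine ⟨port, into_mono into_port fun W F hF c hc => ?_⟩
        obtain ⟨h1, h2, h3, h4⟩ := portLike_avoids hF
        cases c <;> first | assumption | tauto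

end Pool.Agent.Lib.Pe46137i
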