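import Pool.Agent.Lib.Pe46137i.Sets
import Pool.Agent.Lib.Pe46137i.CherryMain
import Pool.Agent.Lib.Pe46137h9.DRed
import Pool.Agent.Lib.Pe46137h9.Hard

/-!
# Reductions of dimension two as reductions of arbitrary dimension
-/

namespace Pool.Agent.Lib.Pe46137i

open Pool.Agent.Lib.Pe46137h7 Pool.Agent.Lib.Pe46137h9

/-- A reduction of dimension two as a reduction of arbitrary dimension. -/
abbrev toD (r : Reduction) : DReduction where
  dim := 2
  copies := r.copies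
  arc := r.arc
  src := r.src
  tgt := r.tgt
  srcCopy := r.srcCopy
  tgtCopy := r.tgtCopy
  arc_fo := r.arc_fo
  src_fo := r.src_fo
  tgt_fo := r.tgt_fo

/-- Pairs as tuples. -/
def duo (V : Type) : (Fin 2 → V) ≃ V × V where
  toFun x := (x 0, x 1)
  invFun y := ![y.1, y.2]
  left_inv x := by
    funext i
    fin_cases i <;> rfl
  right_inv y := rfl

section

variable {V : Type} [LinearOrder V] {E : V → V → Prop} {r : Reduction}

theorem toD_out (p q : Fin r.copies × (Fin 2 → V)) :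
    (toD r).out E p q ↔ r.out E (p.1, duo V p.2) (q.1, duo V q.2) := by
  unfold DReduction.out Reduction.out
  have : Fin.append p.2 q.2 = ![(duo V p.2).1, (duo V p.2).2, (duo V q.2).1, (duo V q.2).2] := by
    funext i
    fin_cases i <;> rfl
  exact iff_of_eq (congrArg (Sat (ordStr E) (r.arc p.1 q.1)) this)

theorem toD_src (s : V) (x : Fin 2 → V) : (toD r).IsSrc E s x ↔ r.IsSrc E s (duo V x) := by
  unfold DReduction.IsSrc Reduction.IsSrc
  have : Fin.append ![s] x = ![s, (duo V x).1, (duo V x).2] := by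
    funext i
    fin_cases i <;> rfl
  exact iff_of_eq (congrArg (Sat (ordStr E) r.src) this)

theorem toD_tgt (s : V) (x : Fin 2 → V) : (toD r).IsTgt E s x ↔ r.IsTgt E s (duo V x) := by
  unfold DReduction.IsTgt Reduction.IsTgt
  have : Fin.append ![s] x = ![s, (duo V x).1, (duo V x).2] := by
    funext i
    fin_cases i <;> rfl
  exact iff_of_eq (congrArg (Sat (ordStr E) r.tgt) this)

end

theorem Into.toD {C : ∀ W : Type, (W → W → Prop) → Prop}
    (hC : ∀ (W W' : Type) (F : W → W → Prop) (F' : W' → W' → Prop) (e : W ≃ W'),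
      (∀ x y, F x y ↔ F' (e x) (e y)) → C W' F' → C W F)
    {r : Reduction} (hr : Pe46137i.Into r C) : (Pe46137i.toD r).Into C := by
  intro V _ _ E
  let e : Fin r.copies × (Fin 2 → V) ≃ Fin r.copies × V × V :=
    Equiv.prodCongr (Equiv.refl _) (duo V)
  have he : ∀ x y, (Pe46137i.toD r).out E x y ↔ r.out E (e x) (e y) := fun x y => toD_out x y
  obtain ⟨h1, h2, h3, h4⟩ := hr V E
  refine ⟨hC _ _ _ _ e he h1, fun s => ?_, fun s => ?_, fun s t x y hx hy => ?_⟩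
  · obtain ⟨x, hx1, hx2⟩ := h2 s
    exact ⟨(duo V).symm x, (toD_src s _).2 hx1,
      fun y hy => (Equiv.eq_symm_apply (duo V)).2 (hx2 _ ((toD_src s _).1 hy))⟩
  · obtain ⟨x, hx1, hx2⟩ := h3 s
    exact ⟨(duo V).symm x, (toD_tgt s _).2 hx1,
      fun y hy => (Equiv.eq_symm_apply (duo V)).2 (hx2 _ ((toD_tgt s _).1 hy))⟩
  · exact (reach_equiv e he (r.srcCopy, x) (r.tgtCopy, y)).trans
      (h4 _ _ _ _ ((toD_src s x).1 hx) ((toD_tgt t y).1 hy))

/-- The dichotomy for sets, with reductions of arbitrary dimension. -/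
theorem sets_dichotomy' {ι : Type} (h : ι → ℕ) (H : ∀ k, Fin (h k) → Fin (h k) → Prop)
    (hH : (∀ k, ¬ HasDouble (H k)) ∨ ∀ k, HasDouble (H k)) :
    ((∃ k, IsMatch (H k)) → ReachDef fun _ E => ∀ k, ¬ HasInd (H k) E) ∧
    ((¬ ∃ k, IsMatch (H k)) → ∃ r : DReduction, r.Into fun _ F => ∀ k, ¬ HasInd (H k) F) := by
  refine ⟨(sets_dichotomy h H hH).1, fun hno => ?_⟩
  obtain ⟨r, hr⟩ := (sets_dichotomy h H hH).2 hno
  exact ⟨toD r, hr.toD fun W W' F F' e he h1 k h2 => h1 k (hasInd_congr e he h2)⟩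

/-- The dichotomy for cherries, with reductions of arbitrary dimension. -/
theorem cherry_dichotomy' (T : Set Cherry) :
    (((.P ∈ T ∧ .A ∈ T) ∨ (.P ∈ T ∧ .B ∈ T) ∨ (.O ∈ T ∧ .B ∈ T) ∨ (.I ∈ T ∧ .A ∈ T)) →
      ReachDef fun _ E => ∀ c ∈ T, ¬ HasInd c.graph E) ∧
    (¬ ((.P ∈ T ∧ .A ∈ T) ∨ (.P ∈ T ∧ .B ∈ T) ∨ (.O ∈ T ∧ .B ∈ T) ∨ (.I ∈ T ∧ .A ∈ T)) →
      ∃ r : DReduction, r.Into fun _ F => ∀ c ∈ T, ¬ HasInd c.graph F) := by
  refine ⟨(cherry_dichotomy T).1, fun hno => ?_⟩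
  obtain ⟨r, hr⟩ := (cherry_dichotomy T).2 hno
  exact ⟨toD r, hr.toD fun W W' F F' e he h1 k hk h2 => h1 k hk (hasInd_congr e he h2)⟩

end Pool.Agent.Lib.Pe46137i
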