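import Pool.Agent.Lib.Pe46137i.Cert
import Pool.Agent.Lib.Pe46137i.Red

/-!
# Oriented graphs without an induced out-path of length two with a further out-neighbour
-/

namespace Pool.Agent.Lib.Pe46137i

open Pool.Agent.Lib.Pe46137h7

/-- The oriented path with vertices `2 ← 1 ← 0 → 3`. -/
def O21 (i j : Fin 4) : Prop := (i = 0 ∧ j = 1) ∨ (i = 1 ∧ j = 2) ∨ (i = 0 ∧ j = 3)

variable {V : Type}

theorem hasInd_O21 {E : V → V → Prop} (hE : Oriented E) {u a a' b : V}
    (h1 : E u a) (h2 : E a a') (h3 : E u b) (h4 : ¬ E u a') (h5 : ¬ E a' u) (h6 : ¬ E a b)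
    (h7 : ¬ E b a) (h8 : ¬ E a' b) (h9 : ¬ E b a') : HasInd O21 E := by
  have n1 : u ≠ a := fun e => hE u a h1 (e ▸ h1)
  have n2 : a ≠ a' := fun e => hE a a' h2 (e ▸ h2)
  have n3 : u ≠ b := fun e => hE u b h3 (e ▸ h3)
  have n4 : u ≠ a' := fun e => hE u a h1 (e ▸ h2)
  have n5 : a ≠ b := fun e => h8 (e ▸ by exact absurd (e ▸ h2) h9)
  have n6 : a' ≠ b := fun e => h4 (e ▸ h3)
  refine ⟨![u, a, a', b], ?_, ?_⟩
  · intro i j hij
    fin_cases i <;> fin_cases j <;> simp_all
  · have o1 := hE _ _ h1
    have o2 := hE _ _ h2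
    have o3 := hE _ _ h3
    intro i j hij
    fin_cases i <;> fin_cases j <;> simp_all [O21]

/-- **Persistence.**  A vertex which does not reach the last vertex of a shortest path, but is an
out-neighbour of a vertex of the path, is seen from one of the last two vertices of the path
within two steps. -/
theorem persistence {F : V → V → Prop} (hF : Oriented F) (hO : ¬ HasInd O21 F) {a t : V} {n : ℕ}
    {p : ℕ → V} (h0 : p 0 = a) (h1 : p n = t) (h2 : ∀ i < n, F (p i) (p (i + 1)))
    (hmin : ∀ m, Walk F m a t → n ≤ m) {b : V} (hb : ∀ j ≤ n, ¬ F b (p j)) {i₀ : ℕ}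
    (hi₀ : i₀ ≤ n) (hab : F (p i₀) b) :
    F (p n) b ∨ (0 < n ∧ F (p (n - 1)) b) ∨ ∃ c, F (p n) c ∧ F c b := by
  classical
  -- the last vertex of the path seeing `b`
  have hex : ∃ d, d ≤ n ∧ F (p (n - d)) b := ⟨n - i₀, by omega, by
    rwa [show n - (n - i₀) = i₀ by omega]⟩
  obtain ⟨hd1, hd2⟩ := Nat.find_spec hex
  have hd3 := fun d (hd : d < Nat.find hex) => Nat.find_min hex hd
  set d := Nat.find hex with hd
  rcases Nat.lt_or_ge d 2 with h3 | h3
  · rcases Nat.lt_or_ge d 1 with h4 | h4
    · left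
      rwa [show n - d = n by omega] at hd2
    · right
      left
      rw [show n - d = n - 1 by omega] at hd2
      exact ⟨by omega, hd2⟩
  right
  right
  set i := n - d with hi
  have hlast : ∀ j, i < j → j ≤ n → ¬ F (p j) b := by
    intro j hj1 hj2 hF
    refine hd3 (n - j) (by omega) ⟨by omega, ?_⟩
    rwa [show n - (n - j) = j by omega]
  have key : ∀ j, i + 2 ≤ j → j ≤ n → F (p j) (p i) := by
    intro j
    induction j with
    | zero => intro h; omega
    | succ j ih =>
      intro hj1 hj2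
      by_contra hcon
      rcases Nat.lt_or_ge j (i + 2) with h4 | h4
      · have hj : j = i + 1 := by omega
        subst hj
        refine hO (hasInd_O21 hF (h2 i (by omega)) (h2 (i + 1) (by omega)) hd2
          (no_chord h0 h1 h2 hmin (by omega) (by omega)) hcon (hlast _ (by omega) (by omega))
          (hb _ (by omega)) (hlast _ (by omega) (by omega)) (hb _ (by omega)))
      · have h5 := ih h4 (by omega)
        -- `p j → p i → b` and `p j → p (j + 1)`
        have h6 : ¬ F (p i) (p (j + 1)) := no_chord h0 h1 h2 hmin (by omega) (by omega)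
        exact hO (hasInd_O21 hF h5 hd2 (h2 j (by omega)) (hlast _ (by omega) (by omega))
          (hb _ (by omega)) h6 hcon (hb _ (by omega)) (hlast _ (by omega) (by omega)))
  exact ⟨p i, key n (by omega) le_rfl, hd2⟩

theorem HasInd.of_sub {h : ℕ} {H : Fin h → Fin h → Prop} {E : V → V → Prop} {X : Set V}
    (hH : ∀ i, ∃ j, i ≠ j ∧ (H i j ∨ H j i))
    (h1 : HasInd H (fun a b => E a b ∧ a ∈ X ∧ b ∈ X)) : HasInd H E := by
  obtain ⟨f, hf, hf2⟩ := h1
  have hX : ∀ i, f i ∈ X := by
    intro i
    obtain ⟨j, hij, h2 | h2⟩ := hH i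
    · exact ((hf2 i j hij).1 h2).2.1
    · exact ((hf2 j i hij.symm).1 h2).2.2
  exact ⟨f, hf, fun i j hij => (hf2 i j hij).trans ⟨fun h => h.1, fun h => ⟨h, hX i, hX j⟩⟩⟩

theorem cert_sound {E : V → V → Prop} (hE : Oriented E) (hO : ¬ HasInd O21 E) {y t₁ t₂ : V}
    (h12 : E t₁ t₂) (hc : Cert (fun _ E => Within E 3) E y t₁ t₂) : Reach E y t₁ := by
  have hF : Oriented (Pend E t₁ t₂) := fun p q h h' => hE p q h.1 h'.1
  have hO' : ¬ HasInd O21 (Pend E t₁ t₂) := by
    intro h
    refine hO (HasInd.of_sub (X := {a | E a t₂ → a = t₁}) ?_ h)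
    intro i
    fin_cases i
    · exact ⟨1, by decide, Or.inl (by simp [O21])⟩
    · exact ⟨0, by decide, Or.inr (by simp [O21])⟩
    · exact ⟨1, by decide, Or.inr (by simp [O21])⟩
    · exact ⟨0, by decide, Or.inr (by simp [O21])⟩
  have hne : t₁ ≠ t₂ := fun e => hE t₁ t₂ h12 (e ▸ h12)
  have hp12 : Pend E t₁ t₂ t₁ t₂ :=
    ⟨h12, fun _ => rfl, fun h => absurd h (fun h => hE _ _ h h)⟩
  refine Pend.reach (t₁ := t₁) (t₂ := t₂) ?_
  induction hc using Relation.ReflTransGen.head_induction_on with
  | refl => exact .refl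
  | @head b u hbu _ ih =>
    rcases hbu with hbu | hbu
    · exact .head hbu.1 ih
    · -- an arc `u → b` with `u` reaching `t₁`
      obtain ⟨hub, hu, hb⟩ := hbu
      by_contra hcon
      have hbt : ¬ Within (Pend E t₁ t₂) 3 t₁ b := by
        rcases hb with rfl | hb
        · exact absurd .refl hcon
        · exact hb
      obtain ⟨n, p, h0, h1, h2, hmin⟩ := exists_shortest (ih.tail hp12)
      have hn : 0 < n := by
        rcases Nat.eq_zero_or_pos n with h3 | h3
        · exfalso
          rw [h3, h0] at h1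
          exact hbt (((Within.single hp12).tail (h1 ▸ hub)).mono (by omega))
        · exact h3
      have hpen : p (n - 1) = t₁ := by
        have h3 := h2 (n - 1) (by omega)
        rw [show n - 1 + 1 = n by omega, h1] at h3
        exact h3.2.1 h3.1
      have hreach : ∀ j ≤ n - 1, Reach (Pend E t₁ t₂) (p j) t₁ := by
        intro j hj
        have h4 : Reach (Pend E t₁ t₂) (p j) (p (n - 1)) := reach_iff_walk.2
          ⟨_, walk_of_path (n := n - 1) (fun i hi => h2 i (by omega)) j (n - 1) hj le_rfl⟩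
        rwa [hpen] at h4
      have hbp : ∀ j ≤ n, ¬ Pend E t₁ t₂ b (p j) := by
        intro j hj hE'
        rcases Nat.lt_or_ge j n with h3 | h3
        · exact hcon (.head hE' (hreach j (by omega)))
        · have h4 : j = n := by omega
          rw [h4, h1] at hE'
          exact hcon (by rw [hE'.2.1 hE'.1])
      rcases persistence hF hO' h0 h1 h2 hmin hbp (Nat.zero_le n) (h0 ▸ hub) with
        h3 | ⟨_, h3⟩ | ⟨c, h3, h4⟩
      · rw [h1] at h3
        exact hbt (((Within.single hp12).tail h3).mono (by omega))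
      · rw [hpen] at h3
        exact hbt ((Within.single h3).mono (by omega))
      · rw [h1] at h3
        exact hbt (((Within.single hp12).tail h3).tail h4)

theorem def_within (k : ℕ) : Def2 fun _ E => Within E k := by
  induction k with
  | zero => exact Def2.eq
  | succ k ih => exact ih.or (ih.comp Def2.arc)

/-- Reachability on oriented graphs without an induced `2 ← 1 ← 0 → 3` is definable. -/
theorem def_O21 : ReachDef fun _ E => Oriented E ∧ ¬ HasInd O21 E :=
  ReachDef.of_cert (def_within 3) (fun _ _ _ _ h => h.reach)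
    fun _ _ hE _ _ _ h12 hc => cert_sound hE.1 hE.2 h12 hc

end Pool.Agent.Lib.Pe46137i
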