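import Pool.Agent.Lib.Pe46137i.Thick

/-!
# Directed reachability and forbidden induced digraphs: the classification

Loops are ignored throughout.  Reachability is considered on the finite digraphs of three kinds
without certain induced digraphs; each problem is first-order definable, or definable in
first-order logic with symmetric transitive closure on a class containing all symmetric digraphs,
all induced subdigraphs of the directed path or all induced subdigraphs of the thick path, or
reachability on all finite digraphs reduces to it by a first-order reduction.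

* All digraphs; a family of forbidden digraphs, all without or all with a double arc.
* Oriented graphs; one connected forbidden digraph other than `2 ← 1 ← 0 → 3 → 4` and its
  reversal.
* Acyclic digraphs; one forbidden digraph.
-/

namespace Pool.Agent.Lib.Pe46137i

open Pool.Agent.Lib.Pe46137h7 Pool.Agent.Lib.Pe46137C

theorem classification :
    (∀ {ι : Type} (h : ι → ℕ) (H : ∀ k, Fin (h k) → Fin (h k) → Prop),
      ((∀ k, ¬ HasDouble (H k)) ∨ ∀ k, HasDouble (H k)) →
      ((∃ k, Arcless (H k)) → ReachFO fun _ E => ∀ k, ¬ HasInd (H k) E) ∧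
      ((∃ k, IsMatch (H k)) → ¬ (∃ k, Arcless (H k)) →
        ReachDef (fun _ E => ∀ k, ¬ HasInd (H k) E) ∧
        ∀ (V : Type) (E : V → V → Prop), (∀ x y, E x y → E y x) → ∀ k, ¬ HasInd (H k) E) ∧
      ((¬ ∃ k, IsMatch (H k)) →
        ∃ r : Pe46137h9.DReduction, r.Into fun _ F => ∀ k, ¬ HasInd (H k) F)) ∧
    (∀ {h : ℕ} (K : Fin h → Fin h → Prop), Conn K →
      ¬ (h = 5 ∧ (HasInd K O22 ∨ HasInd K I22)) →
      (HasInd K P3 → ReachFO fun _ E => Oriented E ∧ ¬ HasInd K E) ∧
      (HasInd K P4 ∨ HasInd K O21 ∨ HasInd K I21 → ¬ HasInd K P3 →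
        ReachDef (fun _ E => Oriented E ∧ ¬ HasInd K E) ∧
        ((∀ (V : Type) (E : V → V → Prop), InPath E → Oriented E ∧ ¬ HasInd K E) ∨
          ∀ (V : Type) (E : V → V → Prop), InThick E → Oriented E ∧ ¬ HasInd K E)) ∧
      (¬ (HasInd K P4 ∨ HasInd K O21 ∨ HasInd K I21) →
        ∃ r : Pe46137h9.DReduction, r.Into fun _ F => Oriented F ∧ ¬ HasInd K F)) ∧
    ∀ {h : ℕ} (K : Fin h → Fin h → Prop),
      (HasInd K PathArc → ReachFO fun _ E => Pe46137h9.Acyclic E ∧ ¬ HasInd K E) ∧
      (HasSub (Irr K) Pe46137h9.Zig → ¬ HasInd K PathArc →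
        ReachDef (fun _ E => Pe46137h9.Acyclic E ∧ ¬ HasInd K E) ∧
        ∀ (V : Type) (E : V → V → Prop), InPath E → Pe46137h9.Acyclic E ∧ ¬ HasInd K E) ∧
      (¬ HasSub (Irr K) Pe46137h9.Zig →
        ∃ r : Pe46137h9.DReduction, r.Into fun _ F => Pe46137h9.Acyclic F ∧ ¬ HasInd K F) :=
  ⟨fun h H hH => sets_trichotomy h H hH, fun K hc hO => oriented_trichotomy K hc hO,
    fun K => acyclic_trichotomy K⟩

end Pool.Agent.Lib.Pe46137i
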