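import Pool.Agent.Lib.Pe46137i.Sub
import Pool.Agent.Lib.Pe46137h7.Kings
import Pool.Agent.Lib.Pe46137A.Logic

/-!
# A general principle for reducing directed to undirected reachability

Fix a definable relation `R` contained in reachability.  For an arc `t₁ → t₂` the other
in-neighbours of `t₂` and the vertices seen from `t₁` through `R` are deleted, and undirected
reachability of `t₁` is used as a certificate for directed reachability.  Vertices that see each
other are linked.  The resulting condition holds for every two vertices joined by a directed path.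
If the certificates are correct then it characterises reachability.
-/

namespace Pool.Agent.Lib.Pe46137i

open Pool.Agent.Lib.Pe46137h7 Pool.Agent.Lib.Pe46137A

/-- Relations assigned to digraphs. -/
abbrev Rel2 := ∀ V : Type, (V → V → Prop) → V → V → Prop

variable {V : Type}

/-- The digraph without the in-neighbours of `t₂` other than `t₁`. -/
def Pend (E : V → V → Prop) (t₁ t₂ a b : V) : Prop :=
  E a b ∧ (E a t₂ → a = t₁) ∧ (E b t₂ → b = t₁)

/-- `b` is `t₁` or is not seen from `t₁`. -/
def Hidden (R : Rel2) (E : V → V → Prop) (t₁ t₂ b : V) : Prop :=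
  b = t₁ ∨ ¬ R V (Pend E t₁ t₂) t₁ b

/-- `y` and `t₁` are joined by an undirected path avoiding the vertices seen from `t₁` and the
in-neighbours of `t₂` other than `t₁`. -/
def Cert (R : Rel2) (E : V → V → Prop) (y t₁ t₂ : V) : Prop :=
  UReach (fun a b => Pend E t₁ t₂ a b ∧ Hidden R E t₁ t₂ a ∧ Hidden R E t₁ t₂ b) y t₁

/-- `x` sees `u`, and an out-neighbour of `u` has a certificate for reaching `x`. -/
def Link (R : Rel2) (E : V → V → Prop) (x u : V) : Prop :=
  ∃ t₂ y, E x t₂ ∧ R V (Pend E x t₂) x u ∧ E u y ∧ Cert R E y x t₂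

/-- The combination of certificates and links. -/
def Route (R : Rel2) (E : V → V → Prop) (s t : V) : Prop :=
  s = t ∨ ∃ x t₁ t₂, E x t ∧ UReach (Link R E) t₁ x ∧ E t₁ t₂ ∧ Cert R E s t₁ t₂

theorem cert_refl (R : Rel2) (E : V → V → Prop) (t₁ t₂ : V) : Cert R E t₁ t₁ t₂ :=
  Relation.ReflTransGen.refl

theorem Pend.reach {E : V → V → Prop} {t₁ t₂ a b : V} (h : Reach (Pend E t₁ t₂) a b) :
    Reach E a b := by
  induction h with
  | refl => exact .refl
  | tail _ h1 ih => exact ih.tail h1.1

/-- **Completeness**, for every digraph. -/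
theorem route_of_reach (R : Rel2) {E : V → V → Prop} {s t : V} (h : Reach E s t) :
    Route R E s t := by
  obtain ⟨n, p, h0, h1, h2, hmin⟩ := exists_shortest h
  rcases Nat.eq_zero_or_pos n with hn | hn
  · left
    rw [← h0, ← h1, hn]
  right
  have key : ∀ i, i < n → ∃ i' ≤ i, UReach (Link R E) (p i') (p i) ∧
      Cert R E s (p i') (p (i' + 1)) := by
    intro i
    induction i using Nat.strong_induction_on with
    | _ i ih =>
      intro hi
      have hin : ∀ j ≤ i, E (p j) (p (i + 1)) → p j = p i := by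
        intro j hj hE
        rcases Nat.lt_or_ge j i with h3 | h3
        · exact absurd hE (no_chord h0 h1 h2 hmin (by omega) (by omega))
        · rw [show j = i by omega]
      have hpend : ∀ j < i, Pend E (p i) (p (i + 1)) (p j) (p (j + 1)) := fun j hj =>
        ⟨h2 j (by omega), hin j (by omega), hin (j + 1) (by omega)⟩
      have hcert : ∀ k ≤ i, (∀ j, k ≤ j → j ≤ i → Hidden R E (p i) (p (i + 1)) (p j)) →
          Cert R E (p k) (p i) (p (i + 1)) := by
        intro k hk hfree
        obtain ⟨d, hd⟩ := Nat.exists_eq_add_of_le hk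
        induction d generalizing k with
        | zero => rw [show i = k by omega]; exact cert_refl _ _ _ _
        | succ d ihd =>
          refine Relation.ReflTransGen.head (Or.inl ⟨hpend k (by omega), hfree k le_rfl (by omega),
            hfree (k + 1) (by omega) (by omega)⟩) ?_
          exact ihd (k + 1) (by omega) (fun j hj1 hj2 => hfree j (by omega) hj2) (by omega)
      by_cases hex : ∃ j, j < i ∧ R V (Pend E (p i) (p (i + 1))) (p i) (p j)
      · -- the last vertex of the path seen from `p i`
        classical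
        have hex' : ∃ d, d + 1 ≤ i ∧ R V (Pend E (p i) (p (i + 1))) (p i) (p (i - (d + 1))) := by
          obtain ⟨j, hj1, hj2⟩ := hex
          refine ⟨i - j - 1, by omega, ?_⟩
          rwa [show i - (i - j - 1 + 1) = j by omega]
        obtain ⟨hk1, hk2⟩ := Nat.find_spec hex'
        have hk3 := fun d (hd : d < Nat.find hex') => Nat.find_min hex' hd
        set d := Nat.find hex' with hd
        have hlink : Link R E (p i) (p (i - (d + 1))) := by
          refine ⟨p (i + 1), p (i - (d + 1) + 1), h2 i hi, hk2, h2 _ (by omega), ?_⟩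
          refine hcert _ (by omega) fun j hj1 hj2 => ?_
          rcases Nat.lt_or_ge j i with h3 | h3
          · right
            intro hR
            refine hk3 (i - j - 1) (by omega) ⟨by omega, ?_⟩
            rwa [show i - (i - j - 1 + 1) = j by omega]
          · left
            rw [show j = i by omega]
        obtain ⟨i', hi1, hi2, hi3⟩ := ih (i - (d + 1)) (by omega) (by omega)
        exact ⟨i', by omega, hi2.tail (Or.inr hlink), hi3⟩
      · refine ⟨i, le_rfl, .refl, ?_⟩
        rw [← h0]
        refine hcert 0 (Nat.zero_le _) fun j _ hj2 => ?_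
        rcases Nat.lt_or_ge j i with h3 | h3
        · exact Or.inr fun hR => hex ⟨j, h3, hR⟩
        · left
          rw [show j = i by omega]
  obtain ⟨i', hi1, hi2, hi3⟩ := key (n - 1) (by omega)
  refine ⟨p (n - 1), p i', p (i' + 1), ?_, hi2, h2 i' (by omega), hi3⟩
  have := h2 (n - 1) (by omega)
  rwa [show n - 1 + 1 = n by omega, h1] at this

/-- **Correctness** from the correctness of the certificates. -/
theorem reach_of_route {R : Rel2} {E : V → V → Prop}
    (hR : ∀ (F : V → V → Prop) a b, R V F a b → Reach F a b)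
    (hC : ∀ y t₁ t₂, E t₁ t₂ → Cert R E y t₁ t₂ → Reach E y t₁) {s t : V}
    (h : Route R E s t) : Reach E s t := by
  have hlink : ∀ x u, Link R E x u → Reach E x u ∧ Reach E u x := by
    rintro x u ⟨t₂, y, h1, h2, h3, h4⟩
    exact ⟨Pend.reach (hR _ _ _ h2), .head h3 (hC _ _ _ h1 h4)⟩
  have hU : ∀ x u, UReach (Link R E) x u → Reach E x u := by
    intro x u h
    induction h with
    | refl => exact .refl
    | tail _ h1 ih =>
      rcases h1 with h1 | h1
      · exact ih.trans (hlink _ _ h1).1
      · exact ih.trans (hlink _ _ h1).2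
  rcases h with rfl | ⟨x, t₁, t₂, h1, h2, h3, h4⟩
  · exact .refl
  · exact ((hC _ _ _ h3 h4).trans (hU _ _ h2)).tail h1

/-! ### Definability -/

theorem DefN.pend {m : ℕ} (i j k l : Fin m) :
    DefN m fun _ E a => Pend E (a i) (a j) (a k) (a l) :=
  ((DefN.of2 Def2.arc k l).and ((DefN.imp (DefN.of2 Def2.arc k j) (DefN.of2 Def2.eq k i)).and
    (DefN.imp (DefN.of2 Def2.arc l j) (DefN.of2 Def2.eq l i)))).congr fun _ _ _ => Iff.rfl

theorem DefN.relPend {R : Rel2} (hR : Def2 R) {m : ℕ} (i j k l : Fin m) :
    DefN m fun V E a => R V (Pend E (a i) (a j)) (a k) (a l) := by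
  obtain ⟨φ, hφ⟩ := hR
  obtain ⟨ψ, hψ⟩ := DefN.pend (m := 4) 0 1 2 3
  refine ⟨subE ψ φ ![i, j] ![k, l], fun V E a => ?_⟩
  rw [sat_subE]
  have e1 : (fun x y => Sat (fun _ => E) ψ (ext (ext (a ∘ ![i, j]) x) y)) =
      Pend E (a i) (a j) := by
    funext x y
    rw [hψ]
    rfl
  have e2 : a ∘ ![k, l] = pair (a k) (a l) := by
    funext i
    fin_cases i <;> rfl
  rw [e1, e2]
  exact hφ V _ _ _

theorem DefN.hidden {R : Rel2} (hR : Def2 R) {m : ℕ} (i j k : Fin m) :
    DefN m fun _ E a => Hidden R E (a i) (a j) (a k) :=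
  ((DefN.of2 Def2.eq k i).or (DefN.relPend hR i j i k).not).congr fun _ _ _ => Iff.rfl

theorem DefN.cert {R : Rel2} (hR : Def2 R) {m : ℕ} (i j k : Fin m) :
    DefN m fun _ E a => Cert R E (a i) (a j) (a k) := by
  have h1 : DefN (m + 2) fun V E a =>
      Pend E (a j.castSucc.castSucc) (a k.castSucc.castSucc) (a (Fin.last m).castSucc)
        (a (Fin.last (m + 1))) ∧
      Hidden R E (a j.castSucc.castSucc) (a k.castSucc.castSucc) (a (Fin.last m).castSucc) ∧
      Hidden R E (a j.castSucc.castSucc) (a k.castSucc.castSucc) (a (Fin.last (m + 1))) :=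
    (DefN.pend _ _ _ _).and ((DefN.hidden hR _ _ _).and (DefN.hidden hR _ _ _))
  refine (DefN.stc h1 i j).congr fun V E a => ?_
  simp only [ext_castSucc, ext_last]
  rfl

theorem def_link {R : Rel2} (hR : Def2 R) : Def2 fun _ E => Link R E := by
  refine DefN.to2 ?_
  have h1 : DefN 4 fun V E a => E (a 0) (a 2) ∧ R V (Pend E (a 0) (a 2)) (a 0) (a 1) ∧
      E (a 1) (a 3) ∧ Cert R E (a 3) (a 0) (a 2) :=
    (DefN.of2 Def2.arc 0 2).and ((DefN.relPend hR 0 2 0 1).and
      ((DefN.of2 Def2.arc 1 3).and (DefN.cert hR 3 0 2)))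
  exact (DefN.ex (DefN.ex h1)).congr fun V E a => Iff.rfl

theorem def_route {R : Rel2} (hR : Def2 R) : Def2 fun _ E => Route R E := by
  have hU : Def2 fun V E x y => UReach (Link R E) x y :=
    (def_link hR).stc.congr fun V E x y => Iff.rfl
  have h1 : DefN 5 fun V E a => E (a 2) (a 1) ∧ UReach (Link R E) (a 3) (a 2) ∧
      E (a 3) (a 4) ∧ Cert R E (a 0) (a 3) (a 4) :=
    (DefN.of2 Def2.arc 2 1).and ((DefN.of2 hU 3 2).and
      ((DefN.of2 Def2.arc 3 4).and (DefN.cert hR 0 3 4)))
  have h2 : Def2 fun V E s t => ∃ x t₁ t₂, E x t ∧ UReach (Link R E) t₁ x ∧ E t₁ t₂ ∧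
      Cert R E s t₁ t₂ :=
    DefN.to2 ((DefN.ex (DefN.ex (DefN.ex h1))).congr fun V E a => Iff.rfl)
  exact (Def2.eq.or h2).congr fun V E s t => Iff.rfl

/-- **The principle.**  If `R` is a definable relation contained in reachability and the
certificates are correct on the digraphs in `C` then reachability is definable on `C`. -/
theorem ReachDef.of_cert {R : Rel2} (hR : Def2 R)
    (hR' : ∀ (V : Type) (F : V → V → Prop) a b, R V F a b → Reach F a b)
    {C : ∀ V : Type, (V → V → Prop) → Prop}
    (hC : ∀ (V : Type) (E : V → V → Prop), C V E → ∀ y t₁ t₂, E t₁ t₂ → Cert R E y t₁ t₂ →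
      Reach E y t₁) : ReachDef C :=
  ReachDef.of (def_route hR) fun V _ E hE _ _ =>
    ⟨reach_of_route (fun F a b => hR' V F a b) (hC V E hE), route_of_reach R⟩

end Pool.Agent.Lib.Pe46137i
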