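import Pool.Agent.Lib.Pe46137h7.DefN

/-!
# Definitions: induced subdigraphs, reductions with arbitrary output
-/

namespace Pool.Agent.Lib.Pe46137i

open Pool.Agent.Lib.Pe46137h7

/-- The digraph `E` has an induced subdigraph isomorphic to `H`; loops are ignored. -/
def HasInd {h : ℕ} (H : Fin h → Fin h → Prop) {V : Type} (E : V → V → Prop) : Prop :=
  ∃ f : Fin h → V, Function.Injective f ∧ ∀ i j, i ≠ j → (H i j ↔ E (f i) (f j))

/-- `r` reduces reachability on all finite digraphs, given with a linear order of the vertices,
to reachability on finite digraphs satisfying `C`. -/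
def Into (r : Reduction) (C : ∀ W : Type, (W → W → Prop) → Prop) : Prop :=
  ∀ (V : Type) [Finite V] [LinearOrder V] (E : V → V → Prop),
    C _ (r.out E) ∧ (∀ s, ∃! x, r.IsSrc E s x) ∧ (∀ t, ∃! y, r.IsTgt E t y) ∧
    ∀ s t x y, r.IsSrc E s x → r.IsTgt E t y →
      (Relation.ReflTransGen (r.out E) (r.srcCopy, x) (r.tgtCopy, y) ↔
        Relation.ReflTransGen E s t)

/-- One formula of first-order logic with symmetric transitive closure over the arc relation
defines directed reachability on all finite digraphs satisfying `C`. -/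
def ReachDef (C : ∀ V : Type, (V → V → Prop) → Prop) : Prop :=
  ∃ φ : Fml Unit 2, ∀ (V : Type) [Finite V] (E : V → V → Prop), C V E →
    ∀ s t, Sat (fun _ => E) φ ![s, t] ↔ Relation.ReflTransGen E s t

end Pool.Agent.Lib.Pe46137i
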