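import Pool.Agent.Lib.Pe46137A.Glue
import Pool.Agent.Lib.Pe46137i.ToD

/-!
# First-order definability of reachability

The bottom case of the classification: reachability is first-order definable on digraphs of
bounded independence number (Nickelsen and Tantau), and on acyclic digraphs without an induced
copy of an induced subdigraph of a directed path.
-/

namespace Pool.Agent.Lib.Pe46137i

open Pool.Agent.Lib.Pe46137h7

/-- One first-order formula over the arc relation defines directed reachability on all finite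
digraphs satisfying `C`. -/
def ReachFO (C : ∀ V : Type, (V → V → Prop) → Prop) : Prop :=
  ∃ φ : Fml Unit 2, φ.FirstOrder ∧ ∀ (V : Type) [Finite V] (E : V → V → Prop), C V E →
    ∀ s t, Sat (fun _ => E) φ ![s, t] ↔ Relation.ReflTransGen E s t

/-- Relations of arity `n` on the vertices of digraphs that are expressible in first-order logic
over the arc relation. -/
def FoN (n : ℕ) (P : ∀ V : Type, (V → V → Prop) → (Fin n → V) → Prop) : Prop :=
  ∃ φ : Fml Unit n, φ.FirstOrder ∧ ∀ (V : Type) (E : V → V → Prop) (a : Fin n → V),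
    Sat (fun _ => E) φ a ↔ P V E a

theorem rename_fo {ρ : Type} {n : ℕ} (φ : Fml ρ n) :
    ∀ {m : ℕ} (f : Fin n → Fin m), φ.FirstOrder → (φ.rename f).FirstOrder := by
  induction φ with
  | rel r i j => intro m f h; trivial
  | eq i j => intro m f h; trivial
  | neg φ ih => intro m f h; exact ih f h
  | and φ ψ ih1 ih2 => intro m f h; exact ⟨ih1 f h.1, ih2 f h.2⟩
  | ex φ ih => intro m f h; exact ih _ h
  | stc φ i j ih => intro m f h; exact h.elim

namespace FoN

variable {n m : ℕ} {P Q : ∀ V : Type, (V → V → Prop) → (Fin n → V) → Prop}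

theorem congr (h : FoN n P) (hPQ : ∀ V E a, P V E a ↔ Q V E a) : FoN n Q := by
  obtain ⟨φ, h1, hφ⟩ := h
  exact ⟨φ, h1, fun V E a => (hφ V E a).trans (hPQ V E a)⟩

theorem arc (i j : Fin n) : FoN n fun _ E a => E (a i) (a j) :=
  ⟨.rel () i j, trivial, fun _ _ _ => Iff.rfl⟩

theorem eq (i j : Fin n) : FoN n fun _ _ a => a i = a j :=
  ⟨.eq i j, trivial, fun _ _ _ => Iff.rfl⟩

theorem not (h : FoN n P) : FoN n fun V E a => ¬ P V E a := by
  obtain ⟨φ, h1, hφ⟩ := h
  exact ⟨.neg φ, h1, fun V E a => not_congr (hφ V E a)⟩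

theorem and (hP : FoN n P) (hQ : FoN n Q) : FoN n fun V E a => P V E a ∧ Q V E a := by
  obtain ⟨φ, h1, hφ⟩ := hP
  obtain ⟨ψ, h2, hψ⟩ := hQ
  exact ⟨.and φ ψ, ⟨h1, h2⟩, fun V E a => and_congr (hφ V E a) (hψ V E a)⟩

theorem or (hP : FoN n P) (hQ : FoN n Q) : FoN n fun V E a => P V E a ∨ Q V E a :=
  (hP.not.and hQ.not).not.congr fun V E a => by tauto

theorem ex {P : ∀ V : Type, (V → V → Prop) → (Fin (n + 1) → V) → Prop} (h : FoN (n + 1) P) :
    FoN n fun V E a => ∃ v, P V E (ext a v) := by
  obtain ⟨φ, h1, hφ⟩ := h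
  exact ⟨.ex φ, h1, fun V E a => exists_congr fun v => hφ V E (ext a v)⟩

theorem rename (h : FoN n P) (f : Fin n → Fin m) : FoN m fun V E a => P V E (a ∘ f) := by
  obtain ⟨φ, h1, hφ⟩ := h
  refine ⟨φ.rename f, rename_fo φ f h1, fun V E a => ?_⟩
  rw [sat_rename, hφ]

/-- A finite disjunction. -/
theorem finOr : ∀ (h : ℕ) {P : Fin h → ∀ V : Type, (V → V → Prop) → (Fin n → V) → Prop},
    (∀ i, FoN n (P i)) → FoN n fun V E a => ∃ i, P i V E a
  | 0, _, _ => ⟨.ex (.neg (.eq (Fin.last n) (Fin.last n))), trivial, fun V E a => by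
      simp [Sat]⟩
  | h + 1, P, hP => by
      refine ((finOr h (P := fun i => P i.castSucc) fun i => hP _).or (hP (Fin.last h))).congr ?_
      intro V E a
      constructor
      · rintro (⟨i, hi⟩ | hi)
        · exact ⟨_, hi⟩
        · exact ⟨_, hi⟩
      · rintro ⟨i, hi⟩
        refine Fin.lastCases (motive := fun i => P i V E a →
          (∃ i : Fin h, P i.castSucc V E a) ∨ P (Fin.last h) V E a) ?_ ?_ i hi
        · exact Or.inr
        · exact fun i hi => Or.inl ⟨i, hi⟩

/-- A block of quantifiers. -/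
theorem exs : ∀ (m : ℕ) {P : ∀ V : Type, (V → V → Prop) → (Fin (n + m) → V) → Prop},
    FoN (n + m) P → FoN n fun V E a => ∃ v : Fin m → V, P V E (Fin.append a v)
  | 0, P, hP => hP.congr fun V E a => by
      constructor
      · intro h
        refine ⟨Fin.elim0, ?_⟩
        rw [Fin.append_right_nil _ _ rfl]
        exact h
      · rintro ⟨v, hv⟩
        rw [Fin.append_right_nil _ _ rfl] at hv
        exact hv
  | m + 1, P, hP => by
      refine (exs m (ex (n := n + m) (P := P) hP)).congr fun V E a => ?_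
      have key : ∀ (v : Fin m → V) (w : V), Fin.append a (ext v w) = ext (Fin.append a v) w := by
        intro v w
        exact Fin.append_snoc a v w
      constructor
      · rintro ⟨v, w, h⟩
        refine ⟨ext v w, ?_⟩
        rw [key]
        exact h
      · rintro ⟨v, hv⟩
        refine ⟨fun i => v i.castSucc, v (Fin.last m), ?_⟩
        rw [← key]
        have : ext (fun i => v i.castSucc) (v (Fin.last m)) = v := by
          unfold ext
          exact Fin.snoc_init_self v
        rw [this]
        exact hv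

end FoN

/-! ### Bounded independence number -/

/-- `y` is reached by at most two arcs from one of the vertices `q`. -/
def Ball {V : Type} (E : V → V → Prop) {h : ℕ} (q : Fin h → V) (y : V) : Prop :=
  ∃ i, q i = y ∨ E (q i) y ∨ ∃ z, E (q i) z ∧ E z y

theorem FoN.ball {n h : ℕ} (f : Fin h → Fin n) (j : Fin n) :
    FoN n fun _ E a => Ball E (fun i => a (f i)) (a j) := by
  refine FoN.finOr h fun i => (FoN.eq (f i) j).or ((FoN.arc (f i) j).or ?_)
  refine (FoN.ex ((FoN.arc (f i).castSucc (Fin.last n)).and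
    (FoN.arc (Fin.last n) j.castSucc))).congr fun V E a => ?_
  simp only [ext_castSucc, ext_last]

/-- The vertices reached by at most two arcs from `q` are closed under out-neighbours. -/
def Closed {V : Type} (E : V → V → Prop) {h : ℕ} (q : Fin h → V) : Prop :=
  ∀ y z, Ball E q y → E y z → Ball E q z

theorem FoN.closed {n h : ℕ} (f : Fin h → Fin n) :
    FoN n fun _ E a => Closed E fun i => a (f i) := by
  have h1 : FoN (n + 1 + 1) fun _ E b =>
      Ball E (fun i => b (f i).castSucc.castSucc) (b (Fin.last n).castSucc) ∧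
        E (b (Fin.last n).castSucc) (b (Fin.last (n + 1))) ∧
        ¬ Ball E (fun i => b (f i).castSucc.castSucc) (b (Fin.last (n + 1))) :=
    (FoN.ball (fun i => (f i).castSucc.castSucc) _).and
      ((FoN.arc _ _).and (FoN.ball (fun i => (f i).castSucc.castSucc) _).not)
  refine (FoN.ex (FoN.ex h1)).not.congr fun V E a => ?_
  simp only [ext_castSucc, ext_last]
  unfold Closed
  push Not
  rfl

/-- Every finite set of vertices has an independent subset from which all its vertices are reached
by at most two arcs. -/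
theorem exists_quasiKernel {V : Type} (E : V → V → Prop) :
    ∀ (n : ℕ) (R : Finset V), R.card = n → ∃ Q ⊆ R, (∀ x ∈ Q, ∀ y ∈ Q, x ≠ y → ¬ E x y) ∧
      ∀ y ∈ R, ∃ q ∈ Q, q = y ∨ E q y ∨ ∃ z ∈ R, E q z ∧ E z y := by
  classical
  intro n
  induction n using Nat.strong_induction_on with
  | _ n ih =>
    intro R hR
    rcases R.eq_empty_or_nonempty with rfl | ⟨v, hv⟩
    · exact ⟨∅, Finset.Subset.refl _, by simp, by simp⟩
    · have hlt : (R.filter fun y => y ≠ v ∧ ¬ E v y).card < n := by
        rw [← hR]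
        refine Finset.card_lt_card ⟨Finset.filter_subset _ _, fun h => ?_⟩
        exact ((Finset.mem_filter.1 (h hv)).2.1) rfl
      obtain ⟨Q, hQ, hind, hdom⟩ := ih _ hlt _ rfl
      have hQR : Q ⊆ R := hQ.trans (Finset.filter_subset _ _)
      have hdom' : ∀ y ∈ R, y ≠ v → ¬ E v y →
          ∃ q ∈ Q, q = y ∨ E q y ∨ ∃ z ∈ R, E q z ∧ E z y := by
        intro y hy h1 h2
        obtain ⟨q, hq, h3⟩ := hdom y (Finset.mem_filter.2 ⟨hy, h1, h2⟩)
        refine ⟨q, hq, h3.imp_right fun h3 => h3.imp_right ?_⟩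
        rintro ⟨z, hz, h4⟩
        exact ⟨z, (Finset.filter_subset _ _) hz, h4⟩
      by_cases hqv : ∃ q ∈ Q, E q v
      · obtain ⟨q, hq, hqv⟩ := hqv
        refine ⟨Q, hQR, hind, fun y hy => ?_⟩
        by_cases h1 : y = v
        · exact ⟨q, hq, Or.inr (Or.inl (h1 ▸ hqv))⟩
        · by_cases h2 : E v y
          · exact ⟨q, hq, Or.inr (Or.inr ⟨v, hv, hqv, h2⟩)⟩
          · exact hdom' y hy h1 h2
      · push Not at hqv
        refine ⟨insert v Q, ?_, ?_, fun y hy => ?_⟩
        · intro x hx
          rcases Finset.mem_insert.1 hx with rfl | hx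
          · exact hv
          · exact hQR hx
        · intro x hx y hy hxy
          rcases Finset.mem_insert.1 hx with hx | hx
          · rcases Finset.mem_insert.1 hy with hy | hy
            · exact absurd (hx.trans hy.symm) hxy
            · rw [hx]
              exact (Finset.mem_filter.1 (hQ hy)).2.2
          · rcases Finset.mem_insert.1 hy with hy | hy
            · rw [hy]
              exact hqv x hx
            · exact hind x hx y hy hxy
        · by_cases h1 : y = v
          · exact ⟨v, Finset.mem_insert_self _ _, Or.inl h1.symm⟩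
          · by_cases h2 : E v y
            · exact ⟨v, Finset.mem_insert_self _ _, Or.inr (Or.inl h2)⟩
            · obtain ⟨q, hq, h3⟩ := hdom' y hy h1 h2
              exact ⟨q, Finset.mem_insert_of_mem hq, h3⟩

/-- The tuple form: if `E` has no independent set of size `h`, then the vertices reached from `s`
are the vertices reached by at most two arcs from `h` of them. -/
theorem exists_ball {h : ℕ} {H : Fin h → Fin h → Prop} (hH : ∀ i j, i ≠ j → ¬ H i j) {V : Type}
    [Finite V] {E : V → V → Prop} (hE : ¬ HasInd H E) (s : V) :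
    ∃ q : Fin h → V, ∀ y, Ball E q y ↔ Relation.ReflTransGen E s y := by
  classical
  have := Fintype.ofFinite V
  obtain ⟨Q, hQ, hind, hdom⟩ := exists_quasiKernel E _
    (Finset.univ.filter fun y => Relation.ReflTransGen E s y) rfl
  have hmem : ∀ y, y ∈ (Finset.univ.filter fun y => Relation.ReflTransGen E s y) ↔
      Relation.ReflTransGen E s y := by simp
  have hcard : Q.card < h := by
    by_contra hge
    push Not at hge
    refine hE ⟨fun i => (Q.equivFin.symm ⟨i.val, by omega⟩).val, ?_, fun i j hij => ?_⟩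
    · intro i j hij
      have h1 := Q.equivFin.symm.injective (Subtype.ext hij)
      simpa [Fin.ext_iff] using h1
    · refine iff_of_false (hH i j hij) (hind _ (Subtype.property _) _ (Subtype.property _) ?_)
      intro h1
      have h2 := Q.equivFin.symm.injective (Subtype.ext h1)
      exact hij (by simpa [Fin.ext_iff] using h2)
  obtain ⟨q0, hq0, -⟩ := hdom s ((hmem s).2 .refl)
  have hpos : 0 < Q.card := Finset.card_pos.2 ⟨q0, hq0⟩
  let q : Fin h → V := fun i => (Q.equivFin.symm ⟨i.val % Q.card, Nat.mod_lt _ hpos⟩).val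
  have hq : ∀ x, (∃ i, q i = x) ↔ x ∈ Q := by
    intro x
    constructor
    · rintro ⟨i, rfl⟩
      exact Subtype.property _
    · intro hx
      refine ⟨⟨(Q.equivFin ⟨x, hx⟩).val, by omega⟩, ?_⟩
      have h1 : (⟨(Q.equivFin ⟨x, hx⟩).val % Q.card, Nat.mod_lt _ hpos⟩ : Fin Q.card) =
          Q.equivFin ⟨x, hx⟩ := by
        ext
        exact Nat.mod_eq_of_lt (Fin.is_lt _)
      simp only [q]
      rw [h1, Equiv.symm_apply_apply]
  refine ⟨q, fun y => ⟨?_, ?_⟩⟩
  · rintro ⟨i, hi⟩
    have h1 : Relation.ReflTransGen E s (q i) := (hmem _).1 (hQ ((hq _).1 ⟨i, rfl⟩))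
    rcases hi with hi | hi | ⟨z, h2, h3⟩
    · exact hi ▸ h1
    · exact h1.tail hi
    · exact (h1.tail h2).tail h3
  · intro hy
    obtain ⟨x, hx, h1⟩ := hdom y ((hmem y).2 hy)
    obtain ⟨i, rfl⟩ := (hq x).2 hx
    refine ⟨i, h1.imp_right fun h1 => h1.imp_right ?_⟩
    rintro ⟨z, -, h2⟩
    exact ⟨z, h2⟩

/-- **Nickelsen and Tantau.**  Reachability is first-order definable on the digraphs without an
independent set of a fixed size. -/
theorem reachFO_of_arcless {h : ℕ} {H : Fin h → Fin h → Prop} (hH : ∀ i j, i ≠ j → ¬ H i j) :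
    ReachFO fun _ E => ¬ HasInd H E := by
  have h1 : FoN (2 + h) fun _ E b => (Closed E fun i => b (Fin.natAdd 2 i)) ∧
      Ball E (fun i => b (Fin.natAdd 2 i)) (b (Fin.castAdd h 0)) ∧
      ¬ Ball E (fun i => b (Fin.natAdd 2 i)) (b (Fin.castAdd h 1)) :=
    (FoN.closed _).and ((FoN.ball _ _).and (FoN.ball _ _).not)
  obtain ⟨φ, hφ1, hφ⟩ := (FoN.exs h h1).not
  refine ⟨φ, hφ1, fun V _ E hE s t => (hφ V E ![s, t]).trans ?_⟩
  simp only [Fin.append_right, Fin.append_left]
  constructor
  · intro hno
    obtain ⟨q, hq⟩ := exists_ball hH hE s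
    by_contra hst
    refine hno ⟨q, ?_, (hq s).2 .refl, fun h2 => hst ((hq t).1 h2)⟩
    intro y z hy hyz
    exact (hq z).2 (((hq y).1 hy).tail hyz)
  · rintro hst ⟨q, hq1, hq2, hq3⟩
    refine hq3 ?_
    clear hq3
    change Ball E q t
    change Ball E q s at hq2
    induction hst with
    | refl => exact hq2
    | tail _ h2 ih => exact hq1 _ _ ih h2

/-! ### Acyclic digraphs of bounded geodesics -/

theorem FoN.within (k : ℕ) :
    ∀ {n : ℕ} (i j : Fin n), FoN n fun _ E a => Within E k (a i) (a j) := by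
  induction k with
  | zero => intro n i j; exact FoN.eq i j
  | succ k ih =>
    intro n i j
    refine ((ih i j).or (FoN.ex ((ih i.castSucc (Fin.last n)).and
      (FoN.arc (Fin.last n) j.castSucc)))).congr fun V E a => ?_
    simp only [ext_castSucc, ext_last]
    exact Iff.rfl

/-- Reachability is first-order definable on the acyclic digraphs without an induced copy of an
induced subdigraph of a directed path. -/
theorem reachFO_of_path {h : ℕ} {H : Fin h → Fin h → Prop}
    (hH : HasInd H fun a b : ℕ => b = a + 1) :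
    ReachFO fun _ E => Pe46137h9.Acyclic E ∧ ¬ HasInd H E := by
  obtain ⟨g, hg1, hg2⟩ := hH
  obtain ⟨M, hM⟩ : ∃ M, ∀ i, g i ≤ M := by
    obtain ⟨M, hM⟩ := (Set.finite_range g).bddAbove
    exact ⟨M, fun i => hM ⟨i, rfl⟩⟩
  obtain ⟨φ, hφ1, hφ⟩ := FoN.within (n := 2) M (0 : Fin 2) 1
  refine ⟨φ, hφ1, fun V _ E hE s t => (hφ V E ![s, t]).trans ?_⟩
  change Within E M s t ↔ _
  constructor
  · exact fun h1 => h1.reach
  · intro h1
    obtain ⟨n, p, hp, rfl⟩ := Pe46137A.ExistAux.exists_geo h1
    rcases Nat.lt_or_ge M n with h2 | h2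
    · exfalso
      refine hE.2 ⟨fun i => p (g i), ?_, fun i j hij => ?_⟩
      · intro i j hij
        exact hg1 (Pe46137A.ExtractAux.Geo.eq_le hp hp ((hM i).trans h2.le) ((hM j).trans h2.le)
          hij)
      · rw [hg2 i j hij]
        exact (Pe46137A.ExtractAux.Geo.arc_iff hE.1 hp ((hM i).trans h2.le)
          ((hM j).trans h2.le)).symm
    · exact (Pe46137A.ExtractAux.Geo.from hp le_rfl).mono h2

end Pool.Agent.Lib.Pe46137i
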