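import Pool.Agent.Lib.Pe46137i.Sub
import Pool.Agent.Lib.Pe46137h7.PathsMain

/-!
# Digraphs without many pairwise non-adjacent single arcs
-/

namespace Pool.Agent.Lib.Pe46137i

open Pool.Agent.Lib.Pe46137h7

variable {V : Type}

/-- Chains of double arcs. -/
def Dbl (E : V → V → Prop) : V → V → Prop :=
  Relation.ReflTransGen (Sym fun a b => E a b ∧ E b a)

theorem Dbl.refl {E : V → V → Prop} (a : V) : Dbl E a a := Relation.ReflTransGen.refl

theorem Dbl.trans {E : V → V → Prop} (a b c : V) (h : Dbl E a b) (h' : Dbl E b c) : Dbl E a c :=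
  Relation.ReflTransGen.trans h h'

theorem Dbl.symm {E : V → V → Prop} {a b : V} (h : Dbl E a b) : Dbl E b a := by
  induction h with
  | refl => exact Relation.ReflTransGen.refl
  | tail _ h1 ih => exact Relation.ReflTransGen.head (Or.symm h1) ih

theorem Dbl.reach {E : V → V → Prop} {a b : V} (h : Dbl E a b) : Reach E a b := by
  induction h with
  | refl => exact .refl
  | tail _ h1 ih =>
    rcases h1 with h1 | h1
    · exact ih.tail h1.1
    · exact ih.tail h1.2

section Depth

variable {E : V → V → Prop} {s : V}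

theorem jump_of_reach {v : V} (h : Reach E s v) : ∃ j, Jump E (Dbl E) j s v := by
  induction h with
  | refl => exact ⟨0, Dbl.refl s⟩
  | tail _ h1 ih =>
    obtain ⟨j, hj⟩ := ih
    exact ⟨j + 1, hj.tail Dbl.refl h1⟩

/-- The least number of arcs in a chain of arcs and double arcs, the latter for free. -/
noncomputable def depth (E : V → V → Prop) (s v : V) : ℕ := sInf {j | Jump E (Dbl E) j s v}

theorem depth_spec {v : V} (h : Reach E s v) : Jump E (Dbl E) (depth E s v) s v :=
  Nat.sInf_mem (s := {j | Jump E (Dbl E) j s v}) (jump_of_reach h)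

theorem depth_le {v : V} {j : ℕ} (h : Jump E (Dbl E) j s v) : depth E s v ≤ j :=
  Nat.sInf_le (s := {j | Jump E (Dbl E) j s v}) h

theorem depth_step {v w : V} (h : Reach E s v) (hvw : E v w) :
    depth E s w ≤ depth E s v + 1 :=
  depth_le ((depth_spec h).tail Dbl.refl hvw)

theorem depth_dbl_le {v w : V} (h : Reach E s v) (hvw : Dbl E v w) :
    depth E s w ≤ depth E s v :=
  depth_le ((depth_spec h).move Dbl.trans hvw)

theorem depth_dbl {v w : V} (h : Reach E s v) (hvw : Dbl E v w) :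
    depth E s w = depth E s v :=
  le_antisymm (depth_dbl_le h hvw) (depth_dbl_le (h.trans hvw.reach) hvw.symm)

/-- The last single arc of a shortest chain. -/
theorem exists_bfs {v : V} (h : Reach E s v) (hv : 0 < depth E s v) :
    ∃ e : V × V, (E e.1 e.2 ∧ ¬ E e.2 e.1) ∧ Dbl E e.2 v ∧ Reach E s e.1 ∧
      depth E s e.1 + 1 = depth E s v ∧ depth E s e.2 = depth E s v := by
  obtain ⟨k, hk⟩ : ∃ k, depth E s v = k + 1 := ⟨depth E s v - 1, by omega⟩
  have h1 := depth_spec h
  rw [hk] at h1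
  rcases h1 with h1 | ⟨x, h1, y, h2, h3⟩
  · have := depth_le h1
    omega
  · have hx : Reach E s x := h1.reach fun _ _ => Dbl.reach
    have hy : Reach E s y := hx.tail h2
    have h4 := depth_dbl hy h3
    have h5 := depth_step hx h2
    have h6 := depth_le h1
    refine ⟨(x, y), ⟨h2, fun h7 => ?_⟩, h3, hx, by dsimp only; omega, by dsimp only; omega⟩
    have h8 : Dbl E x y := Relation.ReflTransGen.single (Or.inl ⟨h2, h7⟩)
    have := depth_dbl hx h8
    omega

theorem walk_back {v : V} (h : Reach E s v) : ∀ (k δ : ℕ), depth E s v = δ + k →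
    ∃ w, Reach E s w ∧ depth E s w = δ ∧ Jump E (Dbl E) k w v := by
  intro k
  induction k generalizing v with
  | zero => exact fun δ hδ => ⟨v, h, hδ, Dbl.refl v⟩
  | succ k ih =>
    intro δ hδ
    obtain ⟨⟨a, b⟩, ⟨h1, _⟩, h2, h3, h4, _⟩ := exists_bfs h (by omega)
    simp only at h1 h2 h3 h4
    obtain ⟨w, hw1, hw2, hw3⟩ := ih h3 δ (by omega)
    exact ⟨w, hw1, hw2, Or.inr ⟨a, hw3, b, h1, h2⟩⟩

end Depth

/-! ### Greedy choice of pairwise non-adjacent arcs -/

/-- An arc from an end of `p` to an end of `q`, or a common end. -/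
def Touch (E : V → V → Prop) (p q : V × V) : Prop :=
  ∃ x y, (x = p.1 ∨ x = p.2) ∧ (y = q.1 ∨ y = q.2) ∧ (E x y ∨ x = y)

theorem greedy [Finite V] {E : V → V → Prop} {d : V → ℕ} {e : V → V × V} {S : Set V}
    (hS : S.Nonempty) (hfar : ∀ v ∈ S, ∀ w ∈ S, d w + 3 ≤ d v → ¬ Touch E (e w) (e v)) :
    ∀ (n : ℕ) (T : Set V), T ⊆ S →
      (∃ g : Fin n → V, (∀ i, g i ∈ T) ∧ ∀ i j, i ≠ j → ¬ Touch E (e (g i)) (e (g j))) ∨
      ∃ C : Fin n → V, (∀ i, C i ∈ S) ∧
        ∀ v ∈ T, ∃ i, (d v ≤ d (C i) ∧ d (C i) < d v + 3) ∨ Touch E (e (C i)) (e v) := by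
  intro n
  induction n with
  | zero => exact fun T _ => Or.inl ⟨Fin.elim0, fun i => i.elim0, fun i => i.elim0⟩
  | succ n ih =>
    intro T hT
    by_cases hne : T.Nonempty
    · obtain ⟨v₀, hv₀, hmax⟩ := T.toFinite.exists_maximalFor d T hne
      have hmax' : ∀ v ∈ T, d v ≤ d v₀ := fun v hv => by
        rcases le_total (d v) (d v₀) with h | h
        · exact h
        · exact hmax hv h
      rcases ih {v ∈ T | d v + 3 ≤ d v₀ ∧ ¬ Touch E (e v₀) (e v)} (fun v hv => hT hv.1) with
        ⟨g, hg1, hg2⟩ | ⟨C, hC1, hC2⟩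
      · refine Or.inl ⟨Fin.cons v₀ g, ?_, ?_⟩
        · refine Fin.cases hv₀ fun i => ?_
          simpa using (hg1 i).1
        · intro i j
          refine Fin.cases ?_ (fun i => ?_) i
          · refine Fin.cases (fun h => absurd rfl h) (fun j _ => ?_) j
            simpa using (hg1 j).2.2
          · refine Fin.cases (fun _ => ?_) (fun j hij => ?_) j
            · simpa using hfar v₀ (hT hv₀) (g i) (hT (hg1 i).1) (hg1 i).2.1
            · simpa using hg2 i j fun h => hij (h ▸ rfl)
      · refine Or.inr ⟨Fin.cons v₀ C, ?_, fun v hv => ?_⟩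
        · refine Fin.cases (hT hv₀) fun i => ?_
          simpa using hC1 i
        · by_cases h1 : d v₀ < d v + 3
          · exact ⟨0, Or.inl ⟨by simpa using hmax' v hv, by simpa using h1⟩⟩
          · by_cases h2 : Touch E (e v₀) (e v)
            · exact ⟨0, Or.inr (by simpa using h2)⟩
            · obtain ⟨i, hi⟩ := hC2 v ⟨hv, by omega, h2⟩
              exact ⟨i.succ, by simpa using hi⟩
    · obtain ⟨v₁, hv₁⟩ := hS
      exact Or.inr ⟨fun _ => v₁, fun _ => hv₁, fun v hv => absurd ⟨v, hv⟩ hne⟩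

/-- Few intervals of length three leave a gap. -/
theorem exists_gap {n m : ℕ} (D : Fin n → ℕ) (hm : 3 * n < m) :
    ∃ δ k, m = δ + k ∧ k ≤ 3 * n ∧ ∀ i, ¬ (δ ≤ D i ∧ D i < δ + 3) := by
  by_contra hcon
  push Not at hcon
  have h0 : ∀ i : Fin n, (Finset.Icc (m - 3 * n) m ∩ Finset.Ioc (D i - 3) (D i)).card ≤ 3 := by
    intro i
    refine (Finset.card_le_card Finset.inter_subset_right).trans ?_
    rw [Nat.card_Ioc]
    omega
  have h1 : Finset.Icc (m - 3 * n) m ⊆
      Finset.univ.biUnion fun i : Fin n => Finset.Icc (m - 3 * n) m ∩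
        Finset.Ioc (D i - 3) (D i) := by
    intro δ hδ
    have hδ' := hδ
    rw [Finset.mem_Icc] at hδ'
    obtain ⟨i, hi⟩ := hcon δ (m - δ) (by omega) (by omega)
    rw [Finset.mem_biUnion]
    refine ⟨i, Finset.mem_univ _, Finset.mem_inter.2 ⟨hδ, ?_⟩⟩
    rw [Finset.mem_Ioc]
    omega
  have h2 := (Finset.card_le_card h1).trans Finset.card_biUnion_le
  have h3 := h2.trans (Finset.sum_le_sum fun i _ => h0 i)
  simp only [Finset.sum_const, Finset.card_univ, Fintype.card_fin, smul_eq_mul,
    Nat.card_Icc] at h3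
  omega

/-! ### The digraph defined by a matching -/

/-- Every vertex is joined to at most one other vertex, by a single arc. -/
def IsMatch {h : ℕ} (H : Fin h → Fin h → Prop) : Prop :=
  ∀ i j k, i ≠ j → i ≠ k → Adj H i j → Adj H i k → j = k ∧ ¬ (H i j ∧ H j i)

/-- A matching is coordinatised by the names of its components and by the two ends. -/
theorem IsMatch.exists_coord {h : ℕ} {H : Fin h → Fin h → Prop} (hH : IsMatch H) :
    ∃ (ι : Fin h → Fin h) (σ : Fin h → Prop), ∀ i j, i ≠ j →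
      (ι i = ι j ↔ Adj H i j) ∧ (H i j → ¬ H j i ∧ ¬ σ i ∧ σ j) := by
  classical
  let ι : Fin h → Fin h := fun i => if hi : ∃ j, i ≠ j ∧ Adj H i j then min i hi.choose else i
  have h1 : ∀ i j, i ≠ j → Adj H i j → ι i = min i j := by
    intro i j hij hadj
    have hi : ∃ j, i ≠ j ∧ Adj H i j := ⟨j, hij, hadj⟩
    have h2 : hi.choose = j := (hH i _ _ hi.choose_spec.1 hij hi.choose_spec.2 hadj).1
    simp only [ι]
    rw [dif_pos hi, h2]
  have h2 : ∀ i, ι i = i ∨ ∃ j, i ≠ j ∧ Adj H i j ∧ ι i = j := by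
    intro i
    by_cases hi : ∃ j, i ≠ j ∧ Adj H i j
    · obtain ⟨j, hj1, hj2⟩ := hi
      rw [h1 i j hj1 hj2]
      rcases min_choice i j with h3 | h3
      · exact Or.inl h3
      · exact Or.inr ⟨j, hj1, hj2, h3⟩
    · left
      simp only [ι]
      rw [dif_neg hi]
  have hsym : ∀ i j, Adj H i j → Adj H j i := fun i j h => Or.symm h
  refine ⟨ι, fun i => ∃ j, j ≠ i ∧ H j i, fun i j hij => ⟨⟨fun he => ?_, fun hadj => ?_⟩,
    fun h3 => ?_⟩⟩
  · rcases h2 i with h3 | ⟨k, hk1, hk2, h3⟩
    · rcases h2 j with h4 | ⟨l, hl1, hl2, h4⟩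
      · exact absurd (h3.symm.trans (he.trans h4)) hij
      · have : l = i := h4.symm.trans (he.symm.trans h3)
        subst this
        exact hsym _ _ hl2
    · rcases h2 j with h4 | ⟨l, hl1, hl2, h4⟩
      · have : k = j := h3.symm.trans (he.trans h4)
        subst this
        exact hk2
      · have : l = k := h4.symm.trans (he.symm.trans h3)
        subst this
        exact absurd (hH l i j hk1.symm hl1.symm (hsym _ _ hk2) (hsym _ _ hl2)).1 hij
  · rw [h1 i j hij hadj, h1 j i hij.symm (hsym _ _ hadj), min_comm]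
  · have h4 : ¬ H j i := fun h5 => (hH i j j hij hij (Or.inl h3) (Or.inl h3)).2 ⟨h3, h5⟩
    refine ⟨h4, ?_, ⟨i, hij, h3⟩⟩
    rintro ⟨k, hk1, hk2⟩
    have h5 := (hH i j k hij hk1.symm (Or.inl h3) (Or.inr hk2)).1
    rw [← h5] at hk2
    exact h4 hk2

/-- Pairwise non-adjacent single arcs contain every matching. -/
theorem hasInd_of_independent {E : V → V → Prop} {h : ℕ} {H : Fin h → Fin h → Prop}
    (hH : IsMatch H) (e : Fin h → V × V) (h1 : ∀ i, E (e i).1 (e i).2 ∧ ¬ E (e i).2 (e i).1)
    (h2 : ∀ i j, i ≠ j → ¬ Touch E (e i) (e j)) : HasInd H E := by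
  classical
  obtain ⟨ι, σ, hισ⟩ := hH.exists_coord
  have hf : ∀ i, (if σ i then (e (ι i)).2 else (e (ι i)).1) = (e (ι i)).1 ∨
      (if σ i then (e (ι i)).2 else (e (ι i)).1) = (e (ι i)).2 := by
    intro i
    split_ifs
    · exact Or.inr rfl
    · exact Or.inl rfl
  have hno : ∀ i j, ι i ≠ ι j → ¬ E (if σ i then (e (ι i)).2 else (e (ι i)).1)
      (if σ j then (e (ι j)).2 else (e (ι j)).1) ∧
      (if σ i then (e (ι i)).2 else (e (ι i)).1) ≠
        if σ j then (e (ι j)).2 else (e (ι j)).1 := by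
    intro i j hij
    exact ⟨fun h3 => h2 _ _ hij ⟨_, _, hf i, hf j, Or.inl h3⟩,
      fun h3 => h2 _ _ hij ⟨_, _, hf i, hf j, Or.inr h3⟩⟩
  have hne : ∀ i, (e i).1 ≠ (e i).2 := by
    intro i h3
    have := h1 i
    rw [h3] at this
    exact this.2 this.1
  refine ⟨fun i => if σ i then (e (ι i)).2 else (e (ι i)).1, ?_, ?_⟩
  · intro i j hij
    by_contra hne'
    simp only at hij
    by_cases hι : ι i = ι j
    · rcases (hισ i j hne').1.1 hι with h3 | h3
      · obtain ⟨_, h4, h5⟩ := (hισ i j hne').2 h3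
        rw [if_neg h4, if_pos h5, hι] at hij
        exact hne _ hij
      · obtain ⟨_, h4, h5⟩ := (hισ j i (Ne.symm hne')).2 h3
        rw [if_neg h4, if_pos h5, hι] at hij
        exact hne _ hij.symm
    · exact (hno i j hι).2 hij
  · intro i j hij
    by_cases hι : ι i = ι j
    · rcases (hισ i j hij).1.1 hι with h3 | h3
      · obtain ⟨_, h4, h5⟩ := (hισ i j hij).2 h3
        simp only
        rw [if_neg h4, if_pos h5, hι]
        exact ⟨fun _ => (h1 _).1, fun _ => h3⟩
      · obtain ⟨h6, h4, h5⟩ := (hισ j i (Ne.symm hij)).2 h3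
        simp only
        rw [if_neg h4, if_pos h5, hι]
        exact ⟨fun h7 => absurd h7 h6, fun h7 => absurd h7 (h1 _).2⟩
    · exact ⟨fun h3 => absurd ((hισ i j hij).1.2 (Or.inl h3)) hι,
        fun h3 => absurd h3 (hno i j hι).1⟩

/-! ### Reach sets are unions of few balls -/

/-- The union of the balls of radius `r` around `s` and around the entries of `c`. -/
def Balls (E : V → V → Prop) {n : ℕ} (r : ℕ) (s : V) (c : Fin n → V) (v : V) : Prop :=
  Jump E (Dbl E) r s v ∨ ∃ i, Jump E (Dbl E) r (c i) v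

theorem exists_balls [Finite V] {h : ℕ} {H : Fin h → Fin h → Prop} (hH : IsMatch H)
    {E : V → V → Prop} (hE : ¬ HasInd H E) (s : V) :
    ∃ c : Fin h → V, ∀ v, Balls E (3 * h + 3) s c v ↔ Reach E s v := by
  have hex : ∀ v : V, ∃ e : V × V, (Reach E s v ∧ 0 < depth E s v) →
      (E e.1 e.2 ∧ ¬ E e.2 e.1) ∧ Dbl E e.2 v ∧ Reach E s e.1 ∧
      depth E s e.1 + 1 = depth E s v ∧ depth E s e.2 = depth E s v := by
    intro v
    by_cases hv : Reach E s v ∧ 0 < depth E s v
    · obtain ⟨e, he⟩ := exists_bfs hv.1 hv.2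
      exact ⟨e, fun _ => he⟩
    · exact ⟨(v, v), fun h => absurd h hv⟩
  choose e he using hex
  by_cases hne : {v | Reach E s v ∧ 0 < depth E s v}.Nonempty
  · have hfar : ∀ v ∈ {v | Reach E s v ∧ 0 < depth E s v},
        ∀ w ∈ {v | Reach E s v ∧ 0 < depth E s v}, depth E s w + 3 ≤ depth E s v →
        ¬ Touch E (e w) (e v) := by
      rintro v hv w hw hwv ⟨x, y, hx, hy, hxy⟩
      obtain ⟨⟨h1, _⟩, _, h3, h4, h5⟩ := he v hv
      obtain ⟨⟨h1', _⟩, _, h3', h4', h5'⟩ := he w hw
      have hxr : Reach E s x := by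
        rcases hx with rfl | rfl
        · exact h3'
        · exact h3'.tail h1'
      have hxd : depth E s x ≤ depth E s w := by
        rcases hx with rfl | rfl
        · omega
        · omega
      have hyd : depth E s v ≤ depth E s y + 1 := by
        rcases hy with rfl | rfl
        · omega
        · omega
      rcases hxy with hxy | rfl
      · have := depth_step hxr hxy
        omega
      · omega
    rcases greedy (e := e) (d := depth E s) hne hfar h _ subset_rfl with
      ⟨g, hg1, hg2⟩ | ⟨C, hC1, hC2⟩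
    · exact absurd (hasInd_of_independent hH (fun i => e (g i)) (fun i => (he _ (hg1 i)).1) hg2) hE
    · refine ⟨fun i => (e (C i)).1, fun v => ⟨?_, fun hv => ?_⟩⟩
      · rintro (h1 | ⟨i, h1⟩)
        · exact h1.reach fun _ _ => Dbl.reach
        · exact ((he _ (hC1 i)).2.2.1).trans (h1.reach fun _ _ => Dbl.reach)
      · rcases Nat.lt_or_ge (3 * h) (depth E s v) with hd | hd
        · obtain ⟨δ, k, hδ, hk, hgap⟩ := exists_gap (fun i => depth E s (C i)) hd
          obtain ⟨w, hw1, hw2, hw3⟩ := walk_back hv k δ hδ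
          obtain ⟨i, hi⟩ := hC2 w ⟨hw1, by omega⟩
          have hi' : Touch E (e (C i)) (e w) := by
            rcases hi with hi | hi
            · exact absurd (by simpa [hw2] using hi) (hgap i)
            · exact hi
          obtain ⟨x, y, hx, hy, hxy⟩ := hi'
          obtain ⟨⟨h1, _⟩, h2, _⟩ := he w ⟨hw1, by omega⟩
          obtain ⟨⟨h1', _⟩, _⟩ := he _ (hC1 i)
          refine Or.inr ⟨i, ?_⟩
          have j1 : Jump E (Dbl E) 1 (e (C i)).1 x := by
            rcases hx with rfl | rfl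
            · exact Jump.le (Nat.zero_le 1) (i := 0) (Dbl.refl _)
            · exact Jump.tail (i := 0) Dbl.refl (Dbl.refl _) h1'
          have j2 : Jump E (Dbl E) 2 (e (C i)).1 y := by
            rcases hxy with hxy | rfl
            · exact j1.tail Dbl.refl hxy
            · exact j1.le (by omega)
          have j3 : Jump E (Dbl E) 3 (e (C i)).1 (e w).2 := by
            rcases hy with rfl | rfl
            · exact j2.tail Dbl.refl h1
            · exact j2.le (by omega)
          have j4 := (j3.move Dbl.trans h2).trans Dbl.trans hw3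
          exact j4.le (by omega)
        · exact Or.inl ((depth_spec hv).le (by omega))
  · refine ⟨fun _ => s, fun v => ⟨?_, fun hv => ?_⟩⟩
    · rintro (h1 | ⟨i, h1⟩)
      · exact h1.reach fun _ _ => Dbl.reach
      · exact h1.reach fun _ _ => Dbl.reach
    · have h0 : depth E s v = 0 := by
        by_contra h1
        exact hne ⟨v, hv, by omega⟩
      exact Or.inl ((depth_spec hv).le (by omega))

end Pool.Agent.Lib.Pe46137i
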