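import Pool.Agent.Lib.Pe46137i.P4

/-!
# Oriented graphs without an induced directed path with three vertices

These are the oriented quasi-transitive digraphs.  Reachability is first-order definable: if `s`
reaches `t` then the distance is at most three or there is an arc from `t` to `s`, and every strong
component has a vertex from which all its vertices are reached by at most three arcs.
-/

namespace Pool.Agent.Lib.Pe46137i

open Pool.Agent.Lib.Pe46137h7 Pool.Agent.Lib.Pe46137C

/-- The directed path with three vertices. -/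
def P3 (i j : Fin 3) : Prop := j.val = i.val + 1

section

variable {V : Type} {E : V → V → Prop}

theorem quasi (hE : Oriented E) (hP : ¬ HasInd P3 E) {x y z : V} (h1 : E x y) (h2 : E y z) :
    E x z ∨ E z x := by
  by_contra hno
  push Not at hno
  have n1 : x ≠ y := fun e => hE _ _ h1 (e ▸ h1)
  have n2 : y ≠ z := fun e => hE _ _ h2 (e ▸ h2)
  have n3 : x ≠ z := fun e => hE _ _ h1 (e ▸ h2)
  refine hP ⟨![x, y, z], ?_, ?_⟩
  · intro i j hij
    fin_cases i <;> fin_cases j <;> simp_all
  · have o1 := hE _ _ h1
    have o2 := hE _ _ h2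
    intro i j hij
    fin_cases i <;> fin_cases j <;> simp_all [P3]

theorem arc_back (hE : Oriented E) (hP : ¬ HasInd P3 E) {s t : V}
    (h : Relation.ReflTransGen E s t) : Within E 3 s t ∨ E t s := by
  obtain ⟨n, p, hp, rfl⟩ := Pe46137A.ExistAux.exists_geo h
  rcases Nat.lt_or_ge 3 n with hn | hn
  · right
    have hE1 : ∀ i < n, E (p i) (p (i + 1)) := hp.2.1
    have hb : ∀ i j, i + 2 ≤ j → j ≤ n → (E (p i) (p j) ∨ E (p j) (p i)) → E (p j) (p i) := by
      intro i j hij hj h1
      rcases h1 with h1 | h1
      · have := Pe46137A.ExtractAux.Geo.arc_le hp hp (i := i) (j := j) (by omega) hj h1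
        omega
      · exact h1
    have two : ∀ i, i + 2 ≤ n → E (p (i + 2)) (p i) := fun i hi =>
      hb i (i + 2) le_rfl hi (quasi hE hP (hE1 i (by omega)) (hE1 (i + 1) (by omega)))
    have even : ∀ m i, i + 2 * (m + 1) ≤ n → E (p (i + 2 * (m + 1))) (p i) := by
      intro m
      induction m with
      | zero => intro i hi; exact two i hi
      | succ m ih =>
        intro i hi
        have h1 := ih (i + 2) (by omega)
        rw [show i + 2 + 2 * (m + 1) = i + 2 * (m + 1 + 1) by ring] at h1
        exact hb _ _ (by omega) hi (quasi hE hP h1 (two i (by omega))).symm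
    have h0 : E (p n) (p 0) := by
      rcases Nat.even_or_odd' n with ⟨m, hm | hm⟩
      · obtain ⟨k, rfl⟩ : ∃ k, m = k + 1 := ⟨m - 1, by omega⟩
        have := even k 0 (by omega)
        rwa [show 0 + 2 * (k + 1) = n by omega] at this
      · obtain ⟨k, rfl⟩ : ∃ k, m = k + 1 := ⟨m - 1, by omega⟩
        have h1 := even k 1 (by omega)
        rw [show 1 + 2 * (k + 1) = n by omega] at h1
        have h2 : E (p n) (p 2) := hb 2 n (by omega) le_rfl
          (quasi hE hP h1 (hE1 1 (by omega))).symm
        exact hb 0 n (by omega) le_rfl (quasi hE hP h2 (two 0 (by omega))).symm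
    rw [hp.1] at h0
    exact h0
  · left
    exact (Pe46137A.ExtractAux.Geo.from hp le_rfl).mono hn

/-- Every strong component has a vertex from which it is reached by at most three arcs. -/
theorem exists_king [Finite V] (hE : Oriented E) (hP : ¬ HasInd P3 E) (s : V) :
    ∃ q, Relation.ReflTransGen E s q ∧ ∀ x, Relation.ReflTransGen E s x →
      Relation.ReflTransGen E x s → Within E 3 q x := by
  classical
  have := Fintype.ofFinite V
  let C : Finset V := Finset.univ.filter fun x =>
    Relation.ReflTransGen E s x ∧ Relation.ReflTransGen E x s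
  have hC : ∀ x, x ∈ C ↔ Relation.ReflTransGen E s x ∧ Relation.ReflTransGen E x s := by
    intro x; simp [C]
  obtain ⟨q, hq, hmax⟩ := C.exists_max_image (fun q => (C.filter fun y => Within E 3 q y).card)
    ⟨s, (hC s).2 ⟨.refl, .refl⟩⟩
  refine ⟨q, ((hC q).1 hq).1, fun x h1 h2 => ?_⟩
  by_contra hno
  have hx : x ∈ C := (hC x).2 ⟨h1, h2⟩
  have hxq : E x q := ((arc_back hE hP (((hC q).1 hq).2.trans h1)).resolve_left hno)
  refine absurd (hmax x hx) (not_le.2 (Finset.card_lt_card ⟨fun y hy => ?_, fun h => ?_⟩))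
  · obtain ⟨hy1, hy2⟩ := Finset.mem_filter.1 hy
    refine Finset.mem_filter.2 ⟨hy1, ?_⟩
    rcases hy2 with hy2 | ⟨b, hb, hby⟩
    · have h4 : Within E 2 q y := hy2
      exact Within.mono (k := 1 + 2) (by norm_num) ((Within.single hxq).trans h4)
    rcases hb with hb | ⟨a, ha, hab⟩
    · have h4 : Within E 1 q b := hb
      exact Within.mono (k := 1 + (1 + 1)) (by norm_num) ((Within.single hxq).trans (h4.tail hby))
    rcases ha with ha | ⟨a', ha', ha⟩
    · have e : q = a := ha
      rw [← e] at hab
      exact (((Within.single hxq).tail hab).tail hby).mono (by omega)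
    · have e : q = a' := ha'
      rw [← e] at ha
      have hxa : E x a := by
        rcases quasi hE hP hxq ha with h3 | h3
        · exact h3
        · exact absurd (((Within.single ha).tail h3).mono (by omega)) hno
      exact ((Within.single hxa).tail hab).tail hby
  · exact hno (Finset.mem_filter.1 (h (Finset.mem_filter.2 ⟨hx, Within.refl _ _⟩))).2

end

/-- Reachability is first-order definable on oriented graphs without an induced directed path
with three vertices. -/
theorem reachFO_P3 : ReachFO fun _ E => Oriented E ∧ ¬ HasInd P3 E := by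
  have hB : ∀ {n : ℕ} (i j k : Fin n), FoN n fun _ E a =>
      Within E 3 (a i) (a k) ∨ Within E 3 (a j) (a k) := fun i j k =>
    (FoN.within 3 i k).or (FoN.within 3 j k)
  have h1 : FoN 5 fun _ E a => (Within E 3 (a 2) (a 3) ∨ Within E 3 (a 0) (a 3)) ∧
      E (a 3) (a 4) ∧ ¬ (Within E 3 (a 2) (a 4) ∨ Within E 3 (a 0) (a 4)) :=
    (hB 2 0 3).and ((FoN.arc 3 4).and (hB 2 0 4).not)
  have h2 : FoN 3 fun _ E a => (∀ y z, (Within E 3 (a 2) y ∨ Within E 3 (a 0) y) → E y z →
      (Within E 3 (a 2) z ∨ Within E 3 (a 0) z)) ∧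
      ¬ (Within E 3 (a 2) (a 1) ∨ Within E 3 (a 0) (a 1)) := by
    refine (((FoN.ex (FoN.ex h1)).not).and (hB 2 0 1).not).congr fun V E a => ?_
    refine and_congr ?_ Iff.rfl
    have e0 : ∀ y z, ext (ext a y) z 0 = a 0 := fun y z => rfl
    have e2 : ∀ y z, ext (ext a y) z 2 = a 2 := fun y z => rfl
    have e3 : ∀ y z, ext (ext a y) z 3 = y := fun y z => rfl
    have e4 : ∀ y z, ext (ext a y) z 4 = z := fun y z => rfl
    simp only [e0, e2, e3, e4]
    constructor
    · intro h y z hy hyz
      by_contra hz
      exact h ⟨y, z, hy, hyz, hz⟩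
    · rintro h ⟨y, z, hy, hyz, hz⟩
      exact hz (h y z hy hyz)
  obtain ⟨φ, hφ1, hφ⟩ := (FoN.ex h2).not
  refine ⟨φ, hφ1, fun V _ E hE s t => (hφ V E ![s, t]).trans ?_⟩
  have e0 : ∀ q, ext ![s, t] q 0 = s := fun q => rfl
  have e1 : ∀ q, ext ![s, t] q 1 = t := fun q => rfl
  have e2 : ∀ q, ext ![s, t] q 2 = q := fun q => rfl
  simp only [e0, e1, e2]
  constructor
  · intro hno
    obtain ⟨q, hq, hking⟩ := exists_king hE.1 hE.2 s
    have hiff : ∀ y, (Within E 3 q y ∨ Within E 3 s y) ↔ Relation.ReflTransGen E s y := by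
      intro y
      constructor
      · rintro (h | h)
        · exact hq.trans h.reach
        · exact h.reach
      · intro h
        rcases arc_back hE.1 hE.2 h with h3 | h3
        · exact Or.inr h3
        · exact Or.inl (hking y h (.single h3))
    by_contra hst
    refine hno ⟨q, ?_, fun h => hst ((hiff t).1 h)⟩
    intro y z hy hyz
    exact (hiff z).2 (((hiff y).1 hy).tail hyz)
  · rintro hst ⟨q, hq1, hq2⟩
    refine hq2 ?_
    clear hq2 e0 e1 e2
    induction hst with
    | refl => exact Or.inr (Within.refl _ _)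
    | tail _ h3 ih => exact hq1 _ _ ih h3

end Pool.Agent.Lib.Pe46137i
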