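import Pool.Agent.Lib.Pe46137i.FO
import Pool.Agent.Lib.Pe46137C.Conn

/-!
# Oriented graphs without an induced directed path with four vertices

Every arc of a shortest path, except the first and the last one, lies in a closed walk of length
at most four.
-/

namespace Pool.Agent.Lib.Pe46137i

open Pool.Agent.Lib.Pe46137h7 Pool.Agent.Lib.Pe46137C

/-- An arc lying in a closed walk of length at most four. -/
def Back4 {V : Type} (E : V → V → Prop) (x y : V) : Prop := E x y ∧ Within E 3 y x

/-- Both ends of a middle arc of a shortest path are in a closed walk of length at most four. -/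
theorem within_back {V : Type} {E : V → V → Prop} (hE : Oriented E) (hP : ¬ HasInd P4 E) {s : V}
    {n : ℕ} {p : ℕ → V} (hp : Pe46137A.Geo E s n p) {j : ℕ} (hj : j + 3 ≤ n) :
    Within E 3 (p (j + 2)) (p (j + 1)) := by
  by_contra hno
  have hE1 : ∀ i < n, E (p i) (p (i + 1)) := hp.2.1
  have h20 : ¬ E (p (j + 2)) (p j) := fun h =>
    hno (((Within.refl 1 _).tail h).tail (hE1 j (by omega)))
  have h31 : ¬ E (p (j + 3)) (p (j + 1)) := fun h =>
    hno (((Within.refl 1 _).tail (hE1 (j + 2) (by omega))).tail h)
  have h30 : ¬ E (p (j + 3)) (p j) := fun h =>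
    hno ((((Within.refl 0 _).tail (hE1 (j + 2) (by omega))).tail h).tail (hE1 j (by omega)))
  refine hP ⟨fun i => p (j + i.val), ?_, ?_⟩
  · intro i k hik
    have := Pe46137A.ExtractAux.Geo.eq_le hp hp (i := j + i.val) (j := j + k.val) (by omega)
      (by omega) hik
    exact Fin.ext (by omega)
  · intro i k hik
    show P4 i k ↔ E (p (j + i.val)) (p (j + k.val))
    unfold P4
    constructor
    · intro h
      have := hE1 (j + i.val) (by omega)
      rw [show j + k.val = j + i.val + 1 by omega]
      exact this
    · intro h
      have h1 := Pe46137A.ExtractAux.Geo.arc_le hp hp (i := j + i.val) (j := j + k.val) (by omega)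
        (by omega) h
      by_contra h2
      have h3 : k.val < i.val := by
        have : k.val ≠ i.val := fun e => hik (Fin.ext e.symm)
        omega
      have h4 : k.val + 1 = i.val ∨ k.val + 2 = i.val ∨ k.val + 3 = i.val := by omega
      rcases h4 with h4 | h4 | h4
      · refine hE _ _ h ?_
        show E (p (j + k.val)) (p (j + i.val))
        have := hE1 (j + k.val) (by omega)
        rw [show j + i.val = j + k.val + 1 by omega]
        exact this
      · have h5 : k.val = 0 ∨ k.val = 1 := by omega
        rcases h5 with h5 | h5
        · rw [h5, show i.val = 2 by omega] at h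
          exact h20 h
        · rw [h5, show i.val = 3 by omega] at h
          exact h31 h
      · have h5 : k.val = 0 := by omega
        rw [h5, show i.val = 3 by omega] at h
        exact h30 h

/-- Reachability in oriented graphs without an induced directed path with four vertices. -/
theorem reach_iff_P4 {V : Type} {E : V → V → Prop} (hE : Oriented E) (hP : ¬ HasInd P4 E)
    {s t : V} : Relation.ReflTransGen E s t ↔
      Within E 1 s t ∨ ∃ y, (∃ x, E s x ∧ Relation.ReflTransGen (Sym (Back4 E)) x y) ∧ E y t := by
  constructor
  · intro h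
    obtain ⟨n, p, hp, rfl⟩ := Pe46137A.ExistAux.exists_geo h
    have hE1 : ∀ i < n, E (p i) (p (i + 1)) := hp.2.1
    rcases Nat.lt_or_ge 1 n with hn | hn
    · right
      refine ⟨p (n - 1), ⟨p 1, ?_, ?_⟩, ?_⟩
      · have := hE1 0 (by omega)
        rwa [hp.1] at this
      · have key : ∀ i, 1 ≤ i → i ≤ n - 1 → Relation.ReflTransGen (Sym (Back4 E)) (p 1) (p i) := by
          intro i
          induction i with
          | zero => intro h1 _; omega
          | succ i ih =>
            intro _ h2
            rcases Nat.eq_zero_or_pos i with rfl | h3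
            · exact .refl
            · refine (ih h3 (by omega)).tail (Or.inl ⟨hE1 i (by omega), ?_⟩)
              obtain ⟨j, rfl⟩ : ∃ j, i = j + 1 := ⟨i - 1, by omega⟩
              exact within_back hE hP hp (by omega)
        exact key _ (by omega) le_rfl
      · have := hE1 (n - 1) (by omega)
        rwa [show n - 1 + 1 = n by omega] at this
    · left
      exact (Pe46137A.ExtractAux.Geo.from hp le_rfl).mono hn
  · rintro (h | ⟨y, ⟨x, h1, h2⟩, h3⟩)
    · exact h.reach
    · refine ((Relation.ReflTransGen.single h1).trans ?_).tail h3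
      clear h1 h3
      induction h2 with
      | refl => exact .refl
      | tail _ h4 ih =>
        rcases h4 with h4 | h4
        · exact ih.tail h4.1
        · exact ih.trans h4.2.reach

/-- Reachability is definable on oriented graphs without an induced directed path with four
vertices. -/
theorem def_P4 : ReachDef fun _ E => Oriented E ∧ ¬ HasInd P4 E := by
  have h1 : Def2 fun _ E s t => Within E 1 s t ∨
      ∃ y, (∃ x, E s x ∧ Relation.ReflTransGen (Sym (Back4 E)) x y) ∧ E y t :=
    (def_within 1).or ((Def2.arc.comp (Def2.arc.and (def_within 3).inv).stc).comp Def2.arc)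
  obtain ⟨φ, hφ⟩ := h1
  exact ⟨φ, fun V _ E hE s t => (hφ V E s t).trans (reach_iff_P4 hE.1 hE.2).symm⟩

/-- Reachability is definable on oriented graphs without an induced `2 → 1 → 0 ← 3`. -/
theorem def_I21 : ReachDef fun _ E => Oriented E ∧ ¬ HasInd I21 E := by
  refine def_O21.rev.mono fun V E hE => ⟨fun x y h h' => hE.1 y x h h', fun h => hE.2 ?_⟩
  exact Pe46137C.hasInd_rev h

/-- The definable cases for oriented graphs. -/
theorem oriented_easy {h : ℕ} {K : Fin h → Fin h → Prop}
    (hK : HasInd K P4 ∨ HasInd K O21 ∨ HasInd K I21) :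
    ReachDef fun _ E => Oriented E ∧ ¬ HasInd K E := by
  rcases hK with hK | hK | hK
  · exact def_P4.mono fun V E hE => ⟨hE.1, fun h => hE.2 (hasInd_trans hK h)⟩
  · exact def_O21.mono fun V E hE => ⟨hE.1, fun h => hE.2 (hasInd_trans hK h)⟩
  · exact def_I21.mono fun V E hE => ⟨hE.1, fun h => hE.2 (hasInd_trans hK h)⟩

end Pool.Agent.Lib.Pe46137i
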