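import Pool.Agent.Lib.Pe46137h7.OutSemi
import Pool.Agent.Lib.Pe46137i.Defs

/-!
# Reachability when single arcs have semicomplete surroundings

If every out-neighbour of a vertex along a single arc (an arc whose reversal is not an arc) is
adjacent to all other out-neighbours of the vertex, then directed reachability can be expressed
by nested undirected reachability tests.
-/

namespace Pool.Agent.Lib.Pe46137i

open Pool.Agent.Lib.Pe46137h7

variable {V : Type}

/-- The head of a single arc is adjacent to every other out-neighbour of its tail. -/
def Semi (E : V → V → Prop) : Prop :=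
  ∀ v a b, E v a → ¬ E a v → E v b → a ≠ b → Adj E a b

theorem Semi.del {E : V → V → Prop} (h : Semi E) (X : Set V) : Semi (Del E X) := by
  intro v a b ha hb hc hab
  have hav : ¬ E a v := fun hE => hb ⟨hE, ha.2.2, ha.2.1⟩
  rcases h v a b ha.1 hav hc.1 hab with h1 | h1
  · exact Or.inl ⟨h1, ha.2.2, hc.2.2⟩
  · exact Or.inr ⟨h1, hc.2.2, ha.2.2⟩

/-- If `a` is an out-neighbour of `s` which does not reach the vertex `y` reachable from `s`
then `a` is an out-neighbour of `y`. -/
theorem Semi.dom {E : V → V → Prop} (h : Semi E) {s a y : V} (hsy : Reach E s y)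
    (hay : ¬ Reach E a y) (hsa : E s a) : E y a := by
  induction hsy using Relation.ReflTransGen.head_induction_on with
  | refl => exact hsa
  | @head s b hsb hby ih =>
    have hne : a ≠ b := fun e => hay (e ▸ hby)
    have has : ¬ E a s := fun hE => hay (.head hE (.head hsb hby))
    rcases h s a b hsa has hsb hne with h1 | h1
    · exact absurd (.head h1 hby) hay
    · exact ih h1

/-- **Comparability**: any two vertices reachable from a common vertex are comparable. -/
theorem Semi.comparable {E : V → V → Prop} (h : Semi E) {s x y : V}
    (hx : Reach E s x) (hy : Reach E s y) : Reach E x y ∨ Reach E y x := by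
  induction hx using Relation.ReflTransGen.head_induction_on with
  | refl => exact Or.inl hy
  | @head s a hsa hax ih =>
    by_cases hay : Reach E a y
    · exact ih hay
    · exact Or.inr (.head (h.dom hy hay hsa) hax)

/-- If everything reachable from `t` reaches `t` then directed and undirected reachability
of `t` coincide. -/
theorem Semi.reach_of_ureach {E : V → V → Prop} (h : Semi E) {t : V}
    (ht : ∀ z, Reach E t z → Reach E z t) {v : V} (hv : UReach E v t) : Reach E v t := by
  induction hv using Relation.ReflTransGen.head_induction_on with
  | refl => exact .refl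
  | @head a b hab _ ih =>
    rcases hab with hab | hab
    · exact .head hab ih
    · rcases h.comparable (.single hab) ih with h1 | h1
      · exact h1
      · exact ht a h1

theorem Semi.tied_reach {E : V → V → Prop} (h : Semi E) {v w : V} (hvw : Tied E v w) :
    Reach E w v := by
  obtain ⟨_, y, hwy, _, hy⟩ := hvw
  refine .head hwy (Reach.of_del ((h.del _).reach_of_ureach ?_ hy))
  intro z hz
  rw [eq_of_reach_sink hz]

theorem Semi.same_reach {E : V → V → Prop} (h : Semi E) {v w : V} (hvw : Same E v w) :
    Reach E v w ∧ Reach E w v := by
  induction hvw with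
  | refl => exact ⟨.refl, .refl⟩
  | @tail a b _ hab ih =>
    rcases hab with hab | hab
    · exact ⟨ih.1.tail hab.1, (h.tied_reach hab).trans ih.2⟩
    · exact ⟨ih.1.trans (h.tied_reach hab), .head hab.1 ih.2⟩

/-- **Key lemma.**  An arc within a strong component joins vertices related by `Same`. -/
theorem Semi.same_of_arc {E : V → V → Prop} (h : Semi E) (hirr : ∀ v, ¬ E v v)
    {v w : V} (hvw : E v w) (hr : Reach E w v) : Same E v w := by
  obtain ⟨n, p, h0, h1, h2, hmin⟩ := exists_shortest hr
  clear hr
  induction n using Nat.strong_induction_on generalizing v w p with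
  | _ n ih =>
    classical
    -- the last vertex of the path that is an out-neighbour of `v`
    have hex : ∃ i, i ≤ n ∧ E v (p (n - i)) := ⟨n, le_rfl, by simpa [h0] using hvw⟩
    obtain ⟨hi1, hi2⟩ := Nat.find_spec hex
    set k := Nat.find hex with hk
    have hlast : ∀ j, n - k < j → j ≤ n → ¬ E v (p j) := by
      intro j hj1 hj2 hE
      have := Nat.find_min' hex (m := n - j) ⟨by omega, by
        have : n - (n - j) = j := by omega
        rwa [this]⟩
      omega
    set i := n - k with hi
    have hin : i < n := by
      rcases Nat.lt_or_ge i n with h3 | h3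
      · exact h3
      · exfalso
        have : i = n := by omega
        rw [this, h1] at hi2
        exact hirr v hi2
    -- the part of the path after `p i` avoids the out-neighbours of `v`
    have htail : ∀ (u : V), (∀ j, i < j → j ≤ n → ¬ E u (p j)) →
        ∀ j, i < j → j ≤ n → Reach (Del E {z | E u z}) (p j) v := by
      intro u hu j hj1 hj2
      obtain ⟨d, hd⟩ := Nat.exists_eq_add_of_le hj2
      induction d generalizing j with
      | zero => rw [show j = n by omega, h1]
      | succ d ihd =>
        refine .head ⟨h2 j (by omega), hu j hj1 hj2, hu (j + 1) (by omega) (by omega)⟩ ?_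
        exact ihd (j + 1) (by omega) (by omega) (by omega)
    have htied : Tied E v (p i) := by
      refine ⟨hi2, p (i + 1), h2 i hin, hlast _ (by omega) (by omega), ?_⟩
      exact ureach_of_reach (htail v (fun j hj1 hj2 => hlast j hj1 hj2) (i + 1)
        (by omega) (by omega))
    have hstep : Same E v (p i) := .single (Or.inl htied)
    rcases Nat.lt_or_ge i 1 with hi0 | hi0
    · have : i = 0 := by omega
      rwa [this, h0] at hstep
    rcases Nat.lt_or_ge i 2 with hi3 | hi3
    · -- `i = 1`
      have hi4 : i = 1 := by omega
      have hwp : E w (p i) := by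
        have := h2 0 (by omega)
        rw [h0] at this
        rw [hi4]
        exact this
      have hno : ∀ j, i < j → j ≤ n → ¬ E w (p j) := by
        intro j hj1 hj2
        have := no_chord h0 h1 h2 hmin (i := 0) (j := j) (by omega) hj2
        rwa [h0] at this
      have hwv : ¬ E w v := by
        have := hno n (by omega) le_rfl
        rwa [h1] at this
      have hww : ¬ E w w := hirr w
      have htied2 : Tied E w (p i) := by
        refine ⟨hwp, p (i + 1), h2 i hin, hno _ (by omega) (by omega), ?_⟩
        have h3 := htail w hno (i + 1) (by omega) (by omega)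
        exact ureach_of_reach (h3.tail ⟨hvw, hwv, hww⟩)
      exact Relation.ReflTransGen.trans hstep (.single (Or.inr htied2))
    · -- `i ≥ 2`
      have hne : p 0 ≠ p i := path_ne h0 h1 h2 hmin (by omega) (by omega)
      have hnE : ¬ E (p 0) (p i) := no_chord h0 h1 h2 hmin (by omega) (by omega)
      rw [h0] at hne hnE
      have hwv : ¬ E w v := fun hE => by
        have := hmin 1 (.cons hE (.nil _))
        omega
      have hpw : E (p i) w := by
        rcases h v w (p i) hvw hwv hi2 hne with h3 | h3
        · exact absurd h3 hnE
        · exact h3
      -- the initial part of the path is a shortest path from `w` to `p i`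
      have hmin' : ∀ m, Walk E m w (p i) → i ≤ m := by
        intro m hm
        have w2 := walk_of_path h2 i n (by omega) le_rfl
        rw [h1] at w2
        have := hmin _ (hm.append w2)
        omega
      have h3 := ih i hin hpw p h0 rfl (fun j hj => h2 j (by omega)) hmin'
      exact Relation.ReflTransGen.trans hstep h3

/-- `Same` is the relation of lying in the same strong component. -/
theorem Semi.same_iff {E : V → V → Prop} (h : Semi E) (hirr : ∀ v, ¬ E v v) {v w : V} :
    Same E v w ↔ Reach E v w ∧ Reach E w v := by
  constructor
  · exact h.same_reach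
  · rintro ⟨h1, h2⟩
    induction h1 using Relation.ReflTransGen.head_induction_on with
    | refl => exact .refl
    | @head a b hab hbw ih =>
      exact Relation.ReflTransGen.trans (h.same_of_arc hirr hab (hbw.trans h2)) (ih (h2.tail hab))

/-- **Directed reachability from undirected reachability.** -/
theorem Semi.reach_iff {E : V → V → Prop} (h : Semi E) (hirr : ∀ v, ¬ E v v) {s t : V} :
    Reach E s t ↔ s ∉ Exit E t ∧ UReach (Del E (Exit E t)) s t := by
  have hexit : ∀ x, x ∈ Exit E t → ¬ Reach E x t := fun x hx hxt =>
    hx.2 ((h.same_iff hirr).2 ⟨.single hx.1, hxt⟩)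
  constructor
  · intro hst
    refine ⟨fun hs => hexit s hs hst, ureach_of_reach ?_⟩
    induction hst using Relation.ReflTransGen.head_induction_on with
    | refl => exact .refl
    | @head a b hab hbt ih =>
      exact .head ⟨hab, fun ha => hexit a ha (.head hab hbt), fun hb => hexit b hb hbt⟩ ih
  · rintro ⟨_, hst⟩
    refine Reach.of_del ((h.del _).reach_of_ureach ?_ hst)
    intro z hz
    have hzt : Reach E z t := by
      induction hz with
      | refl => exact .refl
      | @tail a b hta hab ih =>
        by_contra hbt
        refine hab.2.2 ⟨?_, fun hs => hbt ((h.same_iff hirr).1 hs).2⟩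
        exact h.dom ih hbt hab.1
    clear hz
    induction hzt using Relation.ReflTransGen.head_induction_on with
    | refl => exact .refl
    | @head a b hab hbt ih =>
      exact .head ⟨hab, fun ha => hexit a ha (.head hab hbt), fun hb => hexit b hb hbt⟩ ih

/-! ### Definability -/

theorem def_tied : Def2 fun _ E => Tied E := by
  -- undirected reachability avoiding the out-neighbours of the parameter
  have h1 : DefN 5 fun _ E a => Del E {z | E (a 0) z} (a 3) (a 4) :=
    ((DefN.of2 Def2.arc 3 4).and ((DefN.of2 Def2.arc 0 3).not.and
      (DefN.of2 Def2.arc 0 4).not)).congr fun V E a => Iff.rfl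
  have h2 : DefN 3 fun _ E a => UReach (Del E {z | E (a 0) z}) (a 2) (a 0) := by
    refine (DefN.stc h1 2 0).congr fun V E a => ?_
    rfl
  refine DefN.to2 ?_
  refine ((DefN.of2 Def2.arc 0 1).and (DefN.ex ((DefN.of2 Def2.arc 1 2).and
    ((DefN.of2 Def2.arc 0 2).not.and h2)))).congr fun V E a => ?_
  rfl

theorem def_same : Def2 fun _ E => Same E := by
  refine def_tied.stc.congr fun V E x y => ?_
  rfl

/-- Membership in the exit set of the first variable. -/
theorem def_exit : Def2 fun _ E t x => x ∈ Exit E t :=
  (Def2.arc.and def_same.not).congr fun _ _ _ _ => Iff.rfl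

theorem def_semiReach : Def2 fun _ E s t => s ∉ Exit E t ∧ UReach (Del E (Exit E t)) s t := by
  have h1 : DefN 4 fun _ E a => Del E (Exit E (a 1)) (a 2) (a 3) :=
    ((DefN.of2 Def2.arc 2 3).and ((DefN.of2 def_exit 1 2).not.and
      (DefN.of2 def_exit 1 3).not)).congr fun V E a => Iff.rfl
  have h2 : DefN 2 fun _ E a => UReach (Del E (Exit E (a 1))) (a 0) (a 1) := by
    refine (DefN.stc h1 0 1).congr fun V E a => ?_
    rfl
  exact (DefN.to2 (P := fun _ E s t => UReach (Del E (Exit E t)) s t) h2 |>.and
    (def_exit.inv.not)).congr fun V E x y => by tauto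

end Pool.Agent.Lib.Pe46137i
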