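import Pool.Agent.Lib.Pe46137i.Single

/-!
# Arbitrary sets of forbidden induced digraphs
-/

namespace Pool.Agent.Lib.Pe46137i

open Pool.Agent.Lib.Pe46137h7

/-- Some pair of distinct vertices is joined by arcs in both directions. -/
def HasDouble {h : ℕ} (H : Fin h → Fin h → Prop) : Prop := ∃ i j, i ≠ j ∧ H i j ∧ H j i

theorem IsMatch.not_hasDouble {h : ℕ} {H : Fin h → Fin h → Prop} (hH : IsMatch H) :
    ¬ HasDouble H := by
  rintro ⟨i, j, hij, h1, h2⟩
  exact (hH i j j hij hij (Or.inl h1) (Or.inl h1)).2 ⟨h1, h2⟩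

/-- Oriented graphs which are not matchings have two arcs at some vertex. -/
theorem exists_two_of_not_match {h : ℕ} {H : Fin h → Fin h → Prop} (hD : ¬ HasDouble H)
    (hH : ¬ IsMatch H) : ∃ i j k, i ≠ j ∧ i ≠ k ∧ j ≠ k ∧
      ((H i j ∧ ¬ H j i) ∨ (H j i ∧ ¬ H i j)) ∧ ((H i k ∧ ¬ H k i) ∨ (H k i ∧ ¬ H i k)) := by
  have hS : ∀ i j, i ≠ j → Adj H i j → (H i j ∧ ¬ H j i) ∨ (H j i ∧ ¬ H i j) := by
    rintro i j hij (h1 | h1)
    · exact Or.inl ⟨h1, fun h2 => hD ⟨i, j, hij, h1, h2⟩⟩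
    · exact Or.inr ⟨h1, fun h2 => hD ⟨i, j, hij, h2, h1⟩⟩
  unfold IsMatch at hH
  push Not at hH
  obtain ⟨i, j, k, hij, hik, h1, h2, h3⟩ := hH
  have hjk : j ≠ k := fun e => by
    obtain ⟨h4, h5⟩ := h3 e
    exact hD ⟨i, j, hij, h4, h5⟩
  exact ⟨i, j, k, hij, hik, hjk, hS i j hij h1, hS i k hik h2⟩

/-- **Dichotomy for arbitrary sets of forbidden induced oriented graphs**, and for arbitrary sets
of forbidden induced digraphs with double arcs: one member is a matching, or the problem is hard.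
-/
theorem sets_dichotomy {ι : Type} (h : ι → ℕ) (H : ∀ k, Fin (h k) → Fin (h k) → Prop)
    (hH : (∀ k, ¬ HasDouble (H k)) ∨ ∀ k, HasDouble (H k)) :
    ((∃ k, IsMatch (H k)) → ReachDef fun _ E => ∀ k, ¬ HasInd (H k) E) ∧
    ((¬ ∃ k, IsMatch (H k)) → ∃ r : Reduction, Into r fun _ F => ∀ k, ¬ HasInd (H k) F) := by
  constructor
  · rintro ⟨k, hk⟩
    exact (reachDef_of_match hk).mono fun V E hE => hE k
  · intro hno
    rcases hH with hH | hH
    · refine ⟨port, into_port.mono fun W F hF k => ?_⟩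
      obtain ⟨i, j, l, hij, hil, hjl, h1, h2⟩ :=
        exists_two_of_not_match (hH k) fun hm => hno ⟨k, hm⟩
      exact not_hasInd_portLike hF hij hil hjl h1 h2
    · refine ⟨blob, into_blob.mono fun W F hF k => ?_⟩
      obtain ⟨i, j, hij, h1, h2⟩ := hH k
      exact not_hasInd_oriented hF hij h1 h2

end Pool.Agent.Lib.Pe46137i
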