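import Pool.Agent.Lib.Pe46137i.Match
import Pool.Agent.Lib.Pe46137i.Red

/-!
# One forbidden induced digraph: the dichotomy
-/

namespace Pool.Agent.Lib.Pe46137i

open Pool.Agent.Lib.Pe46137h7

/-! ### Quantification over tuples -/

/-- Two tuples, one after the other. -/
def app {V : Type} {n m : ℕ} (a : Fin n → V) (c : Fin m → V) : Fin (n + m) → V :=
  Fin.append a c

theorem DefN.exs {n : ℕ} : ∀ (m : ℕ) {P : ∀ V : Type, (V → V → Prop) → (Fin (n + m) → V) → Prop},
    DefN (n + m) P → DefN n fun V E a => ∃ c : Fin m → V, P V E (app a c)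
  | 0, P, h => h.congr fun V E a => by
      constructor
      · intro h1
        refine ⟨Fin.elim0, ?_⟩
        have : app a Fin.elim0 = a := by
          funext i
          exact Fin.append_left a Fin.elim0 i
        rwa [this]
      · rintro ⟨c, h1⟩
        have : app a c = a := by
          funext i
          exact Fin.append_left a c i
        rwa [this] at h1
  | m + 1, P, h => by
      refine (DefN.exs m (P := fun V E a => ∃ v, P V E (ext a v)) (DefN.ex h)).congr
        fun V E a => ?_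
      constructor
      · rintro ⟨c, v, h1⟩
        refine ⟨ext c v, ?_⟩
        have : app a (ext c v) = ext (app a c) v := Fin.append_snoc a c v
        rwa [this]
      · rintro ⟨c, h1⟩
        refine ⟨fun i => c i.castSucc, c (Fin.last m), ?_⟩
        have h2 : c = ext (fun i => c i.castSucc) (c (Fin.last m)) := by
          funext i
          refine Fin.lastCases ?_ (fun i => ?_) i
          · rw [ext_last]
          · rw [ext_castSucc]
        have h3 : app a c = ext (app a fun i => c i.castSucc) (c (Fin.last m)) := by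
          conv_lhs => rw [h2]
          exact Fin.append_snoc a _ _
        rwa [h3] at h1

theorem DefN.exFin {n : ℕ} : ∀ (m : ℕ) {P : Fin m → ∀ V : Type, (V → V → Prop) →
    (Fin n → V) → Prop}, (∀ i, DefN n (P i)) → (hn : 0 < n) →
    DefN n fun V E a => ∃ i, P i V E a
  | 0, P, h, hn => by
      refine (((DefN.of2 Def2.eq ⟨0, hn⟩ ⟨0, hn⟩).not)).congr fun V E a => ?_
      simp
  | m + 1, P, h, hn => by
      refine ((h 0).or (DefN.exFin m (P := fun i => P i.succ) (fun i => h i.succ) hn)).congr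
        fun V E a => ?_
      rw [Fin.exists_fin_succ]

/-! ### The formula -/

theorem def_dbl : Def2 fun _ E => Dbl E :=
  (Def2.arc.and Def2.arc.inv).stc

theorem def_balls (n r : ℕ) (k : ℕ) (i₀ j₀ : Fin k) (f : Fin n → Fin k) :
    DefN k fun _ E a => Balls E r (a i₀) (fun i => a (f i)) (a j₀) := by
  refine (DefN.or (DefN.of2 (def_dbl.jump r) i₀ j₀)
    (DefN.exFin n (fun i => DefN.of2 (def_dbl.jump r) (f i) j₀) ?_)).congr fun V E a => Iff.rfl
  exact i₀.pos

/-- Every closed union of balls one of which is centred at the source contains the target. -/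
def BallReach {V : Type} (n r : ℕ) (E : V → V → Prop) (s t : V) : Prop :=
  ¬ ∃ c : Fin n → V, (¬ ∃ u v, Balls E r s c u ∧ E u v ∧ ¬ Balls E r s c v) ∧
    ¬ Balls E r s c t

theorem def_ballReach (n r : ℕ) : Def2 fun _ E => BallReach n r E := by
  refine DefN.to2 ?_
  -- the variables: source, target, centres, an arc
  have h1 : DefN (2 + n + 2) fun _ E a =>
      Balls E r (a ⟨0, by omega⟩) (fun i : Fin n => a ⟨2 + i.1, by omega⟩) (a ⟨2 + n, by omega⟩) ∧
      E (a ⟨2 + n, by omega⟩) (a ⟨2 + n + 1, by omega⟩) ∧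
      ¬ Balls E r (a ⟨0, by omega⟩) (fun i : Fin n => a ⟨2 + i.1, by omega⟩)
        (a ⟨2 + n + 1, by omega⟩) :=
    (def_balls n r _ _ _ fun i : Fin n => ⟨2 + i.1, by omega⟩).and
      ((DefN.of2 Def2.arc _ _).and
        (def_balls n r _ _ _ fun i : Fin n => ⟨2 + i.1, by omega⟩).not)
  have h2 : DefN (2 + n) fun _ E a =>
      ¬ Balls E r (a ⟨0, by omega⟩) (fun i : Fin n => a ⟨2 + i.1, by omega⟩) (a ⟨1, by omega⟩) :=
    (def_balls n r _ _ _ fun i : Fin n => ⟨2 + i.1, by omega⟩).not
  refine (DefN.exs n ((DefN.ex (DefN.ex h1)).not.and h2)).not.congr fun V E a => ?_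
  have k0 : ∀ c : Fin n → V, app a c ⟨0, by omega⟩ = a 0 := fun c =>
    Fin.append_left a c 0
  have k1 : ∀ c : Fin n → V, app a c ⟨1, by omega⟩ = a 1 := fun c =>
    Fin.append_left a c 1
  have k2 : ∀ (c : Fin n → V) (i : Fin n), app a c ⟨2 + i.1, by omega⟩ = c i := fun c i =>
    Fin.append_right a c i
  have e1 : ∀ (b : Fin (2 + n) → V) (u v : V) (j : ℕ) (hj : j < 2 + n),
      ext (ext b u) v ⟨j, by omega⟩ = b ⟨j, hj⟩ := by
    intro b u v j hj
    have h3 : (⟨j, by omega⟩ : Fin (2 + n + 2)) = (⟨j, hj⟩ : Fin (2 + n)).castSucc.castSucc := rfl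
    rw [h3, ext_castSucc, ext_castSucc]
  have e2 : ∀ (b : Fin (2 + n) → V) (u v : V), ext (ext b u) v ⟨2 + n, by omega⟩ = u := by
    intro b u v
    have h3 : (⟨2 + n, by omega⟩ : Fin (2 + n + 2)) = (Fin.last (2 + n)).castSucc := rfl
    rw [h3, ext_castSucc, ext_last]
  have e3 : ∀ (b : Fin (2 + n) → V) (u v : V),
      ext (ext b u) v ⟨2 + n + 1, by omega⟩ = v := by
    intro b u v
    exact ext_last _ _
  refine not_congr (exists_congr fun c => and_congr (not_congr (exists_congr fun u =>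
    exists_congr fun v => ?_)) ?_)
  · have e4 : (fun i : Fin n => ext (ext (app a c) u) v ⟨2 + i.1, by omega⟩) = c := by
      funext i
      rw [e1 _ _ _ _ (by omega), k2]
    rw [e1 _ _ _ 0 (by omega), e4, e2, e3, k0]
  · have e4 : (fun i : Fin n => app a c ⟨2 + i.1, by omega⟩) = c := by
      funext i
      rw [k2]
    rw [e4, k0, k1]

theorem reachDef_of_match {h : ℕ} {H : Fin h → Fin h → Prop} (hH : IsMatch H) :
    ReachDef fun _ E => ¬ HasInd H E := by
  refine ReachDef.of (def_ballReach h (3 * h + 3)) fun V _ E hE s t => ?_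
  constructor
  · intro h1
    obtain ⟨c, hc⟩ := exists_balls hH hE s
    by_contra h2
    refine h1 ⟨c, ?_, fun h3 => h2 ((hc t).1 h3)⟩
    rintro ⟨u, v, h3, h4, h5⟩
    exact h5 ((hc v).2 (((hc u).1 h3).tail h4))
  · rintro h1 ⟨c, h2, h3⟩
    have h4 : ∀ v, Reach E s v → Balls E (3 * h + 3) s c v := by
      intro v hv
      induction hv with
      | refl => exact Or.inl (Jump.le (Nat.zero_le _) (i := 0) (Dbl.refl s))
      | @tail u v _ huv ih =>
        by_contra h5
        exact h2 ⟨u, v, ih, huv, h5⟩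
    exact h3 (h4 t h1)

/-! ### Hardness -/

theorem Into.mono {r : Reduction} {C C' : ∀ W : Type, (W → W → Prop) → Prop}
    (h : Into r C') (hC : ∀ W F, C' W F → C W F) : Into r C :=
  fun V _ _ E => ⟨hC _ _ (h V E).1, (h V E).2⟩

theorem not_hasInd_oriented {W : Type} {F : W → W → Prop} (hF : Oriented F) {h : ℕ}
    {H : Fin h → Fin h → Prop} {i j : Fin h} (hij : i ≠ j) (h1 : H i j) (h2 : H j i) :
    ¬ HasInd H F := by
  rintro ⟨f, _, hf⟩
  exact hF _ _ ((hf i j hij).1 h1) ((hf j i hij.symm).1 h2)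

theorem not_hasInd_portLike {W : Type} {F : W → W → Prop} (hF : PortLike F) {h : ℕ}
    {H : Fin h → Fin h → Prop} {i j k : Fin h} (hij : i ≠ j) (hik : i ≠ k) (hjk : j ≠ k)
    (h1 : (H i j ∧ ¬ H j i) ∨ (H j i ∧ ¬ H i j)) (h2 : (H i k ∧ ¬ H k i) ∨ (H k i ∧ ¬ H i k)) :
    ¬ HasInd H F := by
  rintro ⟨f, hinj, hf⟩
  have h3 := hF.1 (f i) (f j) (f k)
    (by rwa [← hf i j hij, ← hf j i hij.symm]) (by rwa [← hf i k hik, ← hf k i hik.symm])
  exact hjk (hinj h3)

/-- **Dichotomy for one forbidden induced digraph.**  Reachability on the digraphs without an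
induced copy of `H` is definable in first-order logic with symmetric transitive closure if `H`
consists of disjoint single arcs and isolated vertices; otherwise reachability on all digraphs
reduces to it by a first-order reduction. -/
theorem single_dichotomy {h : ℕ} (H : Fin h → Fin h → Prop) :
    (IsMatch H → ReachDef fun _ E => ¬ HasInd H E) ∧
    (¬ IsMatch H → ∃ r : Reduction, Into r fun _ F => ¬ HasInd H F) := by
  refine ⟨reachDef_of_match, fun hH => ?_⟩
  by_cases hD : ∃ i j, i ≠ j ∧ H i j ∧ H j i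
  · obtain ⟨i, j, hij, h1, h2⟩ := hD
    exact ⟨blob, into_blob.mono fun W F hF => not_hasInd_oriented hF hij h1 h2⟩
  · have hS : ∀ i j, i ≠ j → Adj H i j → (H i j ∧ ¬ H j i) ∨ (H j i ∧ ¬ H i j) := by
      rintro i j hij (h1 | h1)
      · exact Or.inl ⟨h1, fun h2 => hD ⟨i, j, hij, h1, h2⟩⟩
      · exact Or.inr ⟨h1, fun h2 => hD ⟨i, j, hij, h2, h1⟩⟩
    unfold IsMatch at hH
    push Not at hH
    obtain ⟨i, j, k, hij, hik, h1, h2, h3⟩ := hH
    have hjk : j ≠ k := fun e => by
      obtain ⟨h4, h5⟩ := h3 e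
      exact hD ⟨i, j, hij, h4, h5⟩
    exact ⟨port, into_port.mono fun W F hF =>
      not_hasInd_portLike hF hij hik hjk (hS i j hij h1) (hS i k hik h2)⟩

end Pool.Agent.Lib.Pe46137i
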