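import Pool.Agent.Lib.Pe46137i.FO

/-!
# Directed reachability and forbidden induced digraphs: the classification

Loops are ignored throughout.

* All digraphs: let `H k` be finite digraphs, all without or all with a double arc.  Reachability
  on the finite digraphs without an induced `H k` is first-order definable if some `H k` has no
  arcs; if not, but some `H k` consists of disjoint single arcs and isolated vertices, it is
  definable in first-order logic with symmetric transitive closure, and the class contains all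
  symmetric digraphs; otherwise reachability on all finite digraphs reduces to it by a first-order
  reduction.
* Acyclic digraphs without an induced copy of `K`: the same, the criteria being that `K` is an
  induced subdigraph of a directed path, and that the components of `K` are oriented paths with at
  most one change of direction; in the middle case the class contains all induced subdigraphs of
  directed paths.
-/

namespace Pool.Agent.Lib.Pe46137i

open Pool.Agent.Lib.Pe46137h7

/-- No arc joins two distinct vertices. -/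
def Arcless {h : ℕ} (H : Fin h → Fin h → Prop) : Prop := ∀ i j, i ≠ j → ¬ H i j

/-- The arcs of the directed path on the natural numbers. -/
def PathArc (i j : ℕ) : Prop := j = i + 1

/-- The digraph `E` is an induced subdigraph of the directed path on the natural numbers. -/
def InPath {V : Type} (E : V → V → Prop) : Prop :=
  ∃ g : V → ℕ, Function.Injective g ∧ ∀ x y, E x y ↔ PathArc (g x) (g y)

theorem InPath.acyclic {V : Type} {E : V → V → Prop} (hE : InPath E) : Pe46137h9.Acyclic E := by
  obtain ⟨g, hg1, hg2⟩ := hE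
  exact Pe46137h9.acyclic_of_rank g fun x y h => by
    have := (hg2 x y).1 h
    unfold PathArc at this
    omega

theorem InPath.not_hasInd {V : Type} {E : V → V → Prop} (hE : InPath E) {h : ℕ}
    {K : Fin h → Fin h → Prop} (hK : ¬ HasInd K PathArc) : ¬ HasInd K E := by
  obtain ⟨g, hg1, hg2⟩ := hE
  rintro ⟨f, hf1, hf2⟩
  exact hK ⟨fun i => g (f i), hg1.comp hf1, fun i j hij => (hf2 i j hij).trans (hg2 _ _)⟩

theorem not_hasInd_of_symm {h : ℕ} {H : Fin h → Fin h → Prop} (hD : ¬ HasDouble H)
    (hA : ¬ Arcless H) {V : Type} {E : V → V → Prop} (hE : ∀ x y, E x y → E y x) :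
    ¬ HasInd H E := by
  rintro ⟨f, hf1, hf2⟩
  unfold Arcless at hA
  push Not at hA
  obtain ⟨i, j, hij, h1⟩ := hA
  exact hD ⟨i, j, hij, h1, (hf2 j i hij.symm).2 (hE _ _ ((hf2 i j hij).1 h1))⟩

/-- **The classification**, for arbitrary sets of forbidden induced digraphs without double arcs,
or with double arcs. -/
theorem sets_trichotomy {ι : Type} (h : ι → ℕ) (H : ∀ k, Fin (h k) → Fin (h k) → Prop)
    (hH : (∀ k, ¬ HasDouble (H k)) ∨ ∀ k, HasDouble (H k)) :
    ((∃ k, Arcless (H k)) → ReachFO fun _ E => ∀ k, ¬ HasInd (H k) E) ∧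
    ((∃ k, IsMatch (H k)) → ¬ (∃ k, Arcless (H k)) →
      ReachDef (fun _ E => ∀ k, ¬ HasInd (H k) E) ∧
      ∀ (V : Type) (E : V → V → Prop), (∀ x y, E x y → E y x) → ∀ k, ¬ HasInd (H k) E) ∧
    ((¬ ∃ k, IsMatch (H k)) →
      ∃ r : Pe46137h9.DReduction, r.Into fun _ F => ∀ k, ¬ HasInd (H k) F) := by
  refine ⟨?_, fun h1 h2 => ⟨(sets_dichotomy' h H hH).1 h1, ?_⟩, (sets_dichotomy' h H hH).2⟩
  · rintro ⟨k, hk⟩
    obtain ⟨φ, h1, h2⟩ := reachFO_of_arcless hk
    exact ⟨φ, h1, fun V _ E hE => h2 V E (hE k)⟩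
  · intro V E hE k
    obtain ⟨l, hl⟩ := h1
    refine not_hasInd_of_symm ?_ (fun hk => h2 ⟨k, hk⟩) hE
    rcases hH with hH | hH
    · exact hH k
    · exact absurd (hH l) hl.not_hasDouble

/-- **The classification** for acyclic digraphs and one forbidden induced digraph. -/
theorem acyclic_trichotomy {h : ℕ} (K : Fin h → Fin h → Prop) :
    (HasInd K PathArc → ReachFO fun _ E => Pe46137h9.Acyclic E ∧ ¬ HasInd K E) ∧
    (HasSub (Irr K) Pe46137h9.Zig → ¬ HasInd K PathArc →
      ReachDef (fun _ E => Pe46137h9.Acyclic E ∧ ¬ HasInd K E) ∧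
      ∀ (V : Type) (E : V → V → Prop), InPath E → Pe46137h9.Acyclic E ∧ ¬ HasInd K E) ∧
    (¬ HasSub (Irr K) Pe46137h9.Zig →
      ∃ r : Pe46137h9.DReduction, r.Into fun _ F => Pe46137h9.Acyclic F ∧ ¬ HasInd K F) :=
  ⟨fun hK => reachFO_of_path hK,
    fun h1 h2 => ⟨(Pe46137A.acyclic_dichotomy K).1 h1, fun _ _ hE =>
      ⟨hE.acyclic, hE.not_hasInd h2⟩⟩,
    (Pe46137A.acyclic_dichotomy K).2⟩

/-- The classification in one statement. -/
theorem induced_trichotomy :
    (∀ {ι : Type} (h : ι → ℕ) (H : ∀ k, Fin (h k) → Fin (h k) → Prop),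
      ((∀ k, ¬ HasDouble (H k)) ∨ ∀ k, HasDouble (H k)) →
      ((∃ k, Arcless (H k)) → ReachFO fun _ E => ∀ k, ¬ HasInd (H k) E) ∧
      ((∃ k, IsMatch (H k)) → ¬ (∃ k, Arcless (H k)) →
        ReachDef (fun _ E => ∀ k, ¬ HasInd (H k) E) ∧
        ∀ (V : Type) (E : V → V → Prop), (∀ x y, E x y → E y x) → ∀ k, ¬ HasInd (H k) E) ∧
      ((¬ ∃ k, IsMatch (H k)) →
        ∃ r : Pe46137h9.DReduction, r.Into fun _ F => ∀ k, ¬ HasInd (H k) F)) ∧
    ∀ {h : ℕ} (K : Fin h → Fin h → Prop),
      (HasInd K PathArc → ReachFO fun _ E => Pe46137h9.Acyclic E ∧ ¬ HasInd K E) ∧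
      (HasSub (Irr K) Pe46137h9.Zig → ¬ HasInd K PathArc →
        ReachDef (fun _ E => Pe46137h9.Acyclic E ∧ ¬ HasInd K E) ∧
        ∀ (V : Type) (E : V → V → Prop), InPath E → Pe46137h9.Acyclic E ∧ ¬ HasInd K E) ∧
      (¬ HasSub (Irr K) Pe46137h9.Zig →
        ∃ r : Pe46137h9.DReduction, r.Into fun _ F => Pe46137h9.Acyclic F ∧ ¬ HasInd K F) :=
  ⟨fun h H hH => sets_trichotomy h H hH, fun K => acyclic_trichotomy K⟩

end Pool.Agent.Lib.Pe46137i
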