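import Pool.Agent.Lib.Pe46137i.P3
import Pool.Agent.Lib.Pe46137i.Trichotomy

/-!
# The lower bounds of the middle case for oriented graphs

The directed path is an oriented graph, and so is the thick path, which has no induced directed
path with four vertices.
-/

namespace Pool.Agent.Lib.Pe46137i

open Pool.Agent.Lib.Pe46137h7 Pool.Agent.Lib.Pe46137C

/-- The arcs of the thick path on the natural numbers: from `x` to `x + 1`, and from `y + 2` to `y`
unless `y` leaves remainder two modulo three. -/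
def ThickArc (x y : ℕ) : Prop := y = x + 1 ∨ (x = y + 2 ∧ y % 3 ≠ 2)

/-- The digraph `E` is an induced subdigraph of the thick path. -/
def InThick {V : Type} (E : V → V → Prop) : Prop :=
  ∃ g : V → ℕ, Function.Injective g ∧ ∀ x y, E x y ↔ ThickArc (g x) (g y)

theorem InPath.oriented {V : Type} {E : V → V → Prop} (hE : InPath E) : Oriented E := by
  obtain ⟨g, hg1, hg2⟩ := hE
  intro x y h1 h2
  have h3 := (hg2 _ _).1 h1
  have h4 := (hg2 _ _).1 h2
  unfold PathArc at h3 h4
  omega

theorem InThick.oriented {V : Type} {E : V → V → Prop} (hE : InThick E) : Oriented E := by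
  obtain ⟨g, hg1, hg2⟩ := hE
  intro x y h1 h2
  have h3 := (hg2 _ _).1 h1
  have h4 := (hg2 _ _).1 h2
  unfold ThickArc at h3 h4
  omega

theorem thick_P4 : ¬ HasInd P4 ThickArc := by
  rintro ⟨f, hf, h⟩
  have n01 : f 0 ≠ f 1 := hf.ne (by decide)
  have n02 : f 0 ≠ f 2 := hf.ne (by decide)
  have n03 : f 0 ≠ f 3 := hf.ne (by decide)
  have n12 : f 1 ≠ f 2 := hf.ne (by decide)
  have n13 : f 1 ≠ f 3 := hf.ne (by decide)
  have n23 : f 2 ≠ f 3 := hf.ne (by decide)
  have a01 := (h 0 1 (by decide)).1 rfl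
  have a12 := (h 1 2 (by decide)).1 rfl
  have a23 := (h 2 3 (by decide)).1 rfl
  have b02 := (not_congr (h 0 2 (by decide))).1 (by unfold P4; decide)
  have b20 := (not_congr (h 2 0 (by decide))).1 (by unfold P4; decide)
  have b13 := (not_congr (h 1 3 (by decide))).1 (by unfold P4; decide)
  have b31 := (not_congr (h 3 1 (by decide))).1 (by unfold P4; decide)
  have b03 := (not_congr (h 0 3 (by decide))).1 (by unfold P4; decide)
  have b30 := (not_congr (h 3 0 (by decide))).1 (by unfold P4; decide)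
  unfold ThickArc at *
  generalize f 0 = a at *
  generalize f 1 = b at *
  generalize f 2 = c at *
  generalize f 3 = d at *
  omega

theorem InThick.not_hasInd {V : Type} {E : V → V → Prop} (hE : InThick E) {h : ℕ}
    {K : Fin h → Fin h → Prop} (hK : HasInd P4 K) : ¬ HasInd K E := by
  obtain ⟨g, hg1, hg2⟩ := hE
  intro h1
  obtain ⟨f, hf1, hf2⟩ := hasInd_trans hK h1
  exact thick_P4 ⟨fun i => g (f i), hg1.comp hf1, fun i j hij => (hf2 i j hij).trans (hg2 _ _)⟩

/-- A connected induced subdigraph of the directed path is a directed path. -/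
theorem exists_path {h : ℕ} {K : Fin h → Fin h → Prop} (hc : Conn K) (hK : HasInd K PathArc) :
    ∃ f : Fin h → Fin h, Function.Bijective f ∧
      ∀ i j, i ≠ j → (K i j ↔ (f j).val = (f i).val + 1) := by
  obtain ⟨g, hg1, hg2⟩ := hK
  unfold PathArc at hg2
  rcases Nat.eq_zero_or_pos h with rfl | hpos
  · exact ⟨id, Function.bijective_id, fun i => i.elim0⟩
  have : Nonempty (Fin h) := ⟨⟨0, hpos⟩⟩
  obtain ⟨i₀, hi₀⟩ := Finite.exists_min g
  have hz : ∀ i j, i ≠ j → K i j → Out ((g i : ℤ)) (g j) := fun i j hij hK =>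
    Or.inl ⟨by omega, by have := (hg2 i j hij).1 hK; omega⟩
  have hval : ∀ i, ∀ v ≤ g i - g i₀, ∃ a, g a = g i₀ + v := by
    intro i v hv
    rcases Nat.lt_or_ge v (g i - g i₀) with h1 | h1
    · obtain ⟨a, b, ha, -⟩ := cross (z := fun i => (g i : ℤ)) hz (hc i₀ i)
        (k := ((g i₀ + v : ℕ) : ℤ)) (Or.inl ⟨by omega, by omega⟩)
      exact ⟨a, by omega⟩
    · exact ⟨i, by have := hi₀ i; omega⟩
  have hlt : ∀ i, g i - g i₀ < h := by
    intro i
    have h1 : ∀ v : Fin (g i - g i₀ + 1), ∃ a, g a = g i₀ + v.val := fun v =>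
      hval i v.val (by omega)
    choose u hu using h1
    have h2 : Function.Injective u := by
      intro v w hvw
      have h3 := hu v
      have h4 := hu w
      rw [hvw] at h3
      exact Fin.ext (by omega)
    have := Fintype.card_le_of_injective u h2
    simp only [Fintype.card_fin] at this
    omega
  refine ⟨fun i => ⟨g i - g i₀, hlt i⟩, (Finite.injective_iff_bijective).1 ?_, fun i j hij => ?_⟩
  · intro i j hij
    have h1 := Fin.ext_iff.1 hij
    have h2 := hi₀ i
    have h3 := hi₀ j
    dsimp only at h1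
    exact hg1 (by omega)
  · have h2 := hi₀ i
    have h3 := hi₀ j
    rw [hg2 i j hij]
    dsimp only
    omega

/-- The connected digraphs of the middle case: not in the directed path, or the directed path with
four vertices. -/
theorem not_path_or {h : ℕ} {K : Fin h → Fin h → Prop} (hc : Conn K) (h3 : ¬ HasInd K P3)
    (hK : HasInd K P4 ∨ HasInd K O21 ∨ HasInd K I21) : ¬ HasInd K PathArc ∨ HasInd P4 K := by
  by_cases hp : HasInd K PathArc
  · right
    obtain ⟨f, hf, hf2⟩ := exists_path hc hp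
    have h4 : h ≤ 4 := by
      rcases hK with ⟨e, he, -⟩ | ⟨e, he, -⟩ | ⟨e, he, -⟩ <;>
        simpa using Fintype.card_le_of_injective e he
    rcases Nat.lt_or_ge 3 h with h5 | h5
    · have h6 : h = 4 := by omega
      subst h6
      let e := Equiv.ofBijective f hf
      refine ⟨e.symm, e.symm.injective, fun i j hij => ?_⟩
      rw [hf2 _ _ (e.symm.injective.ne hij)]
      have h7 : f (e.symm i) = i := e.apply_symm_apply i
      have h8 : f (e.symm j) = j := e.apply_symm_apply j
      rw [h7, h8]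
      exact Iff.rfl
    · exact absurd ⟨fun i => ⟨(f i).val, by omega⟩, fun i j hij =>
        hf.1 (Fin.ext (by simpa [Fin.ext_iff] using hij)), fun i j hij => hf2 i j hij⟩ h3
  · exact Or.inl hp

/-- **The classification** for oriented graphs and one connected forbidden induced digraph. -/
theorem oriented_trichotomy {h : ℕ} (K : Fin h → Fin h → Prop) (hc : Conn K)
    (hO : ¬ (h = 5 ∧ (HasInd K O22 ∨ HasInd K I22))) :
    (HasInd K P3 → ReachFO fun _ E => Oriented E ∧ ¬ HasInd K E) ∧
    (HasInd K P4 ∨ HasInd K O21 ∨ HasInd K I21 → ¬ HasInd K P3 →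
      ReachDef (fun _ E => Oriented E ∧ ¬ HasInd K E) ∧
      ((∀ (V : Type) (E : V → V → Prop), InPath E → Oriented E ∧ ¬ HasInd K E) ∨
        ∀ (V : Type) (E : V → V → Prop), InThick E → Oriented E ∧ ¬ HasInd K E)) ∧
    (¬ (HasInd K P4 ∨ HasInd K O21 ∨ HasInd K I21) →
      ∃ r : Pe46137h9.DReduction, r.Into fun _ F => Oriented F ∧ ¬ HasInd K F) := by
  refine ⟨fun hK => ?_, fun h1 h2 => ⟨oriented_easy h1, ?_⟩, fun hK => ?_⟩
  · obtain ⟨φ, h1, h2⟩ := reachFO_P3
    exact ⟨φ, h1, fun V _ E hE => h2 V E ⟨hE.1, fun h3 => hE.2 (hasInd_trans hK h3)⟩⟩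
  · rcases not_path_or hc h2 h1 with h3 | h3
    · exact Or.inl fun V E hE => ⟨hE.oriented, hE.not_hasInd h3⟩
    · exact Or.inr fun V E hE => ⟨hE.oriented, hE.not_hasInd h3⟩
  · refine Pe46137T.oriented_hard fun hs => hK ?_
    rcases conn_small hc hs with h1 | h1 | h1 | h1
    · exact Or.inl h1
    · exact Or.inr (Or.inl h1)
    · exact Or.inr (Or.inr h1)
    · exact absurd h1 hO

end Pool.Agent.Lib.Pe46137i
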